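import Mathlib

set_option autoImplicit false

namespace Pool.Agent.helper49.Blk

variable {G : Type} [Group G]

/-- `Irr(G)`: the set of complex irreducible characters of `G`. -/
def Irr (G : Type) [Group G] : Set (G → ℂ) :=
  {χ | ∃ (V : Type) (_ : AddCommGroup V) (_ : Module ℂ V) (_ : FiniteDimensional ℂ V)
    (ρ : Representation ℂ G V), ρ.IsIrreducible ∧ ρ.character = χ}

/-- The value `ω_χ(K⁺) = |K| χ(g) / χ(1)` of the central character of `χ` at the sum of the
conjugacy class `K` of `g`. It is an algebraic integer when `χ` is irreducible. -/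
noncomputable def omega (χ : G → ℂ) (g : G) : ℂ :=
  (Nat.card (conjugatesOf g) : ℂ) * χ g / χ 1

/-- Let `M` be a maximal ideal of the ring of algebraic integers. Two irreducible characters lie
in the same block if their central characters are congruent modulo `M` at every class sum. -/
def SameBlock (M : Ideal (integralClosure ℤ ℂ)) (χ ψ : G → ℂ) : Prop :=
  ∀ g : G, ∃ a ∈ M, omega χ g - omega ψ g = ((a : integralClosure ℤ ℂ) : ℂ)

/-- `B = Irr(B)` is a block: the set of all irreducible characters in the same block as a given
irreducible character. -/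
def IsBlock (M : Ideal (integralClosure ℤ ℂ)) (B : Set (G → ℂ)) : Prop :=
  ∃ χ ∈ Irr G, B = {ψ | ψ ∈ Irr G ∧ SameBlock M χ ψ}

/-- The kernel of `B`, the intersection of the kernels of its characters, is trivial. -/
def IsFaithful (B : Set (G → ℂ)) : Prop :=
  ∀ g : G, (∀ χ ∈ B, χ g = χ 1) → g = 1

/-- The defect of `B`, that is the largest `v_p(|G|) - v_p(χ(1))` for `χ` in `B`, is positive. -/
def HasPositiveDefect (p : ℕ) (B : Set (G → ℂ)) : Prop :=
  ∃ χ ∈ B, ∃ d : ℕ, χ 1 = d ∧ padicValNat p d < padicValNat p (Nat.card G)

/-- The Fitting subgroup, generated by all nilpotent normal subgroups. -/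
def fitting (G : Type) [Group G] : Subgroup G :=
  sSup {N : Subgroup G | N.Normal ∧ Group.IsNilpotent N}

end Pool.Agent.helper49.Blk
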