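import Mathlib
import Pool.Agent.helper49.BlockDefs

set_option autoImplicit false

open SemidirectProduct

namespace Pool.Agent.helper49.Blk

section grp

variable (S : Type) [Group S]

/-- The action of `S × S` on the functions on `S` by two-sided translation. -/
def phi : S × S →* MulAut (S → ℤˣ) where
  toFun h :=
    { toFun := fun n x => n (h.1⁻¹ * x * h.2)
      invFun := fun n x => n (h.1 * x * h.2⁻¹)
      left_inv := fun n => by funext x; simp [mul_assoc]
      right_inv := fun n => by funext x; simp [mul_assoc]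
      map_mul' := fun n n' => rfl }
  map_one' := by
    refine MulEquiv.ext fun n => ?_
    funext x
    simp
  map_mul' h h' := by
    refine MulEquiv.ext fun n => ?_
    funext x
    simp [mul_assoc]

lemma phi_apply (h : S × S) (n : S → ℤˣ) (x : S) : phi S h n x = n (h.1⁻¹ * x * h.2) := rfl

/-- The group of the counterexample. -/
abbrev GS : Type := (S → ℤˣ) ⋊[phi S] (S × S)

variable {S}

/-- linear characters. -/
def lam (x : S) (n : S → ℤˣ) : ℂ := ((n x : ℤ) : ℂ)

lemma lam_mul (x : S) (n m : S → ℤˣ) : lam x (n * m) = lam x n * lam x m := by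
  simp [lam]

lemma lam_inv (x : S) (n : S → ℤˣ) : lam x n⁻¹ = lam x n := by
  simp [lam]

lemma lam_sq (x : S) (n : S → ℤˣ) : lam x n * lam x n = 1 := by
  unfold lam
  rcases Int.units_eq_one_or (n x) with h | h <;> simp [h]

lemma lam_one (x : S) : lam x (1 : S → ℤˣ) = 1 := by simp [lam]

lemma lam_phi (h : S × S) (x : S) (n : S → ℤˣ) :
    lam (h.1 * x * h.2⁻¹) (phi S h n) = lam x n := by
  unfold lam
  rw [phi_apply]
  congr 3
  simp [mul_assoc]

variable [Fintype S] [DecidableEq S]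

lemma lam_orth (x y : S) (h : x ≠ y) : ∑ n : S → ℤˣ, lam x n * lam y n = 0 := by
  have key : ∑ n : S → ℤˣ, lam x n * lam y n = - ∑ n : S → ℤˣ, lam x n * lam y n := by
    conv_lhs => rw [← Equiv.sum_comp (Equiv.mulLeft (Pi.mulSingle x (-1) : S → ℤˣ))]
    rw [← Finset.sum_neg_distrib]
    refine Finset.sum_congr rfl fun n _ => ?_
    rw [Equiv.coe_mulLeft, lam_mul, lam_mul]
    have h1 : lam x (Pi.mulSingle x (-1) : S → ℤˣ) = -1 := by simp [lam]
    have h2 : lam y (Pi.mulSingle x (-1) : S → ℤˣ) = 1 := by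
      simp [lam, Pi.mulSingle_eq_of_ne h.symm]
    rw [h1, h2]
    ring
  linear_combination (1 / 2 : ℂ) * key

/-- The number of elements of the normal subgroup. -/
abbrev nn (S : Type) [Group S] [Fintype S] [DecidableEq S] : ℂ := (Fintype.card (S → ℤˣ) : ℂ)

lemma nn_ne : nn S ≠ 0 := by
  unfold nn
  exact_mod_cast Fintype.card_ne_zero

variable {V : Type} [AddCommGroup V] [Module ℂ V] (ρ : Representation ℂ (GS S) V)

/-- Projection onto the weight space. -/
noncomputable def E (x : S) : Module.End ℂ V := (nn S)⁻¹ • ∑ n : S → ℤˣ, lam x n • ρ (inl n)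

lemma rho_E (x : S) (m : S → ℤˣ) : ρ (inl m) * E ρ x = lam x m • E ρ x := by
  unfold E
  rw [mul_smul_comm, Finset.mul_sum, smul_comm]
  congr 1
  rw [Finset.smul_sum]
  conv_rhs => rw [← Equiv.sum_comp (Equiv.mulLeft m)]
  refine Finset.sum_congr rfl fun n _ => ?_
  rw [Equiv.coe_mulLeft, lam_mul, mul_smul_comm, ← map_mul, ← map_mul, smul_smul, ← mul_assoc,
    lam_sq, one_mul]

lemma E_rho (x : S) (m : S → ℤˣ) : E ρ x * ρ (inl m) = lam x m • E ρ x := by
  rw [← rho_E]
  unfold E
  rw [mul_smul_comm, Finset.mul_sum, smul_mul_assoc, Finset.sum_mul]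
  congr 1
  refine Finset.sum_congr rfl fun n _ => ?_
  rw [mul_smul_comm, smul_mul_assoc, ← map_mul, ← map_mul, ← map_mul, ← map_mul, mul_comm]

lemma E_mul_E (x y : S) : E ρ x * E ρ y = if x = y then E ρ y else 0 := by
  have h1 : E ρ x * E ρ y = (nn S)⁻¹ • (∑ n : S → ℤˣ, lam x n * lam y n) • E ρ y := by
    conv_lhs => rw [E]
    rw [smul_mul_assoc, Finset.sum_mul, Finset.sum_smul]
    congr 1
    refine Finset.sum_congr rfl fun n _ => ?_
    rw [smul_mul_assoc, rho_E, smul_smul]
  rw [h1]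
  split_ifs with h
  · subst h
    simp only [lam_sq, Finset.sum_const, Finset.card_univ, nsmul_eq_mul, mul_one]
    rw [smul_smul, inv_mul_cancel₀ nn_ne, one_smul]
  · rw [lam_orth x y h, zero_smul, smul_zero]

lemma rho_inr_E (h : S × S) (x : S) :
    ρ (inr h) * E ρ x = E ρ (h.1 * x * h.2⁻¹) * ρ (inr h) := by
  unfold E
  rw [mul_smul_comm, Finset.mul_sum, smul_mul_assoc, Finset.sum_mul]
  congr 1
  conv_rhs => rw [← Equiv.sum_comp (phi S h).toEquiv]
  refine Finset.sum_congr rfl fun n _ => ?_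
  have h1 : (inl (phi S h n) : GS S) * inr h = inr h * inl n := by
    rw [inl_aut, mul_assoc, ← map_mul, inv_mul_cancel, map_one, mul_one]
  simp only [MulEquiv.toEquiv_eq_coe, MulEquiv.coe_toEquiv]
  rw [lam_phi, mul_smul_comm, smul_mul_assoc, ← map_mul, ← map_mul, h1]

/-- The central idempotent. -/
noncomputable def ee : Module.End ℂ V := ∑ x : S, E ρ x

lemma ee_idem : ee ρ * ee ρ = ee ρ := by
  unfold ee
  rw [Finset.sum_mul]
  refine Finset.sum_congr rfl fun x _ => ?_
  rw [Finset.mul_sum]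
  simp [E_mul_E]

lemma ee_inl (n : S → ℤˣ) : ρ (inl n) * ee ρ = ee ρ * ρ (inl n) := by
  unfold ee
  rw [Finset.mul_sum, Finset.sum_mul]
  refine Finset.sum_congr rfl fun x _ => ?_
  rw [rho_E, E_rho]

lemma ee_inr (h : S × S) : ρ (inr h) * ee ρ = ee ρ * ρ (inr h) := by
  unfold ee
  rw [Finset.mul_sum, Finset.sum_mul]
  have e : S ≃ S := (Equiv.mulLeft h.1).trans (Equiv.mulRight h.2⁻¹)
  rw [← Equiv.sum_comp ((Equiv.mulLeft h.1).trans (Equiv.mulRight h.2⁻¹))
    (fun x => E ρ x * ρ (inr h))]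
  refine Finset.sum_congr rfl fun x _ => ?_
  rw [rho_inr_E]
  rfl

lemma ee_comm (g : GS S) : ρ g * ee ρ = ee ρ * ρ g := by
  rw [← inl_left_mul_inr_right g, map_mul, mul_assoc, ee_inr, ← mul_assoc, ee_inl, mul_assoc]

lemma ee_zero_or_one [ρ.IsIrreducible] : ee ρ = 0 ∨ ee ρ = 1 := by
  let W : Subrepresentation ρ :=
    { toSubmodule := LinearMap.range (ee ρ)
      apply_mem_toSubmodule := by
        rintro g v ⟨w, rfl⟩
        refine ⟨ρ g w, ?_⟩
        have := congrArg (fun f : Module.End ℂ V => f w) (ee_comm ρ g)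
        exact this.symm }
  rcases IsSimpleOrder.eq_bot_or_eq_top W with h | h
  · left
    have h1 : LinearMap.range (ee ρ) = ⊥ := congrArg Subrepresentation.toSubmodule h
    exact LinearMap.range_eq_bot.mp h1
  · right
    have h1 : LinearMap.range (ee ρ) = ⊤ := congrArg Subrepresentation.toSubmodule h
    refine LinearMap.ext fun v => ?_
    have h2 : v ∈ LinearMap.range (ee ρ) := by rw [h1]; trivial
    obtain ⟨w, rfl⟩ := h2
    have := congrArg (fun f : Module.End ℂ V => f w) (ee_idem ρ)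
    exact this

/-- The character of the weight space. -/
noncomputable def beta (t : S) : ℂ := LinearMap.trace ℂ V (E ρ 1 * ρ (inr (t, t)))

lemma beta_conj (y t : S) : beta ρ (y * t * y⁻¹) = beta ρ t := by
  unfold beta
  have h1 : (inr (y * t * y⁻¹, y * t * y⁻¹) : GS S) = inr (y, y) * inr (t, t) * inr (y, y)⁻¹ := by
    rw [← map_mul, ← map_mul]; rfl
  have h2 := rho_inr_E ρ (y, y) 1
  simp only [mul_one, mul_inv_cancel] at h2
  rw [h1, map_mul ρ, map_mul ρ, ← mul_assoc, ← mul_assoc, ← h2, LinearMap.trace_mul_comm,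
    ← mul_assoc, ← mul_assoc, ← map_mul ρ, ← map_mul (inr : S × S →* GS S), inv_mul_cancel,
    map_one, map_one, one_mul]

lemma trace_E (x : S) (s t : S) :
    LinearMap.trace ℂ V (E ρ x * ρ (inr (s, t))) = if s * x = x * t then beta ρ t else 0 := by
  split_ifs with h
  · have h1 := rho_inr_E ρ (x, 1) 1
    simp only [mul_one, inv_one] at h1
    have h2 : E ρ x = ρ (inr (x, 1)) * E ρ 1 * ρ (inr (x, 1)⁻¹) := by
      rw [h1, mul_assoc, ← map_mul, ← map_mul, mul_inv_cancel, map_one, map_one, mul_one]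
    have h3 : (x, 1)⁻¹ * (s, t) * (x, 1) = (t, t) := by
      ext
      · simp [mul_assoc, h]
      · simp
    unfold beta
    rw [h2, mul_assoc, mul_assoc, LinearMap.trace_mul_comm, mul_assoc, mul_assoc, ← map_mul,
      ← map_mul, ← map_mul, ← map_mul, ← mul_assoc, h3]
  · have h4 := E_mul_E ρ x x
    rw [if_pos rfl] at h4
    have h5 : s * x * t⁻¹ ≠ x := by
      intro h6
      exact h (mul_inv_eq_iff_eq_mul.mp h6)
    rw [← h4, mul_assoc, LinearMap.trace_mul_comm, mul_assoc, rho_inr_E]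
    simp only
    rw [← mul_assoc, E_mul_E, if_neg (Ne.symm h5), zero_mul, map_zero]

/-- The fixed character. -/
noncomputable def chi0 (g : GS S) : ℂ :=
  ∑ x : S, if g.right.1 * x = x * g.right.2 then lam x g.left else 0

lemma char_eq (h : ee ρ = 1) (g : GS S) : ρ.character g = chi0 g * beta ρ g.right.2 := by
  have h1 : ρ.character g = LinearMap.trace ℂ V (ee ρ * ρ g) := by
    rw [h, one_mul]; rfl
  rw [h1]
  unfold ee chi0
  rw [Finset.sum_mul, map_sum, Finset.sum_mul]
  refine Finset.sum_congr rfl fun x _ => ?_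
  conv_lhs => rw [← inl_left_mul_inr_right g]
  rw [map_mul ρ, ← mul_assoc, E_rho, smul_mul_assoc, map_smul]
  have h2 := trace_E ρ x g.right.1 g.right.2
  rw [Prod.mk.eta] at h2
  rw [h2, smul_eq_mul]
  split_ifs <;> simp

/-- trace of the central idempotent -/
lemma trace_ee : nn S * LinearMap.trace ℂ V (ee ρ) =
    ∑ n : S → ℤˣ, chi0 (inl n : GS S) * ρ.character (inl n) := by
  unfold ee E chi0
  rw [map_sum, Finset.mul_sum]
  simp only [map_smul, map_sum, smul_eq_mul]
  simp only [right_inl, Prod.fst_one, Prod.snd_one, one_mul, mul_one, if_true, left_inl,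
    Finset.sum_mul]
  rw [Finset.sum_comm]
  refine Finset.sum_congr rfl fun x _ => ?_
  rw [← mul_assoc, mul_inv_cancel₀ nn_ne, one_mul]
  rfl

end grp

end Pool.Agent.helper49.Blk
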