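import Mathlib
import Pool.Agent.helper49.Blocks

set_option autoImplicit false

open SemidirectProduct

namespace Pool.Agent.helper49.Blk

section general

variable {G : Type} [Group G]

lemma orth [Fintype G] {V W : Type} [AddCommGroup V] [Module ℂ V] [FiniteDimensional ℂ V]
    [AddCommGroup W] [Module ℂ W] [FiniteDimensional ℂ W] (ρ : Representation ℂ G V)
    (σ : Representation ℂ G W) (hρ : ρ.IsIrreducible) (hσ : σ.IsIrreducible) :
    (ρ.character ≠ σ.character → ∑ g : G, ρ.character g * σ.character g⁻¹ = 0) ∧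
    (ρ.character = σ.character → ∑ g : G, ρ.character g * σ.character g⁻¹ = Nat.card G) := by
  classical
  have hne : (Nat.card G : ℂ) ≠ 0 := by exact_mod_cast Nat.card_pos.ne'
  have hinv : Invertible (Nat.card G : ℂ) := invertibleOfNonzero hne
  have h4 := Representation.char_orthonormal ρ ρ
  have h5 := Representation.char_orthonormal ρ σ
  rw [if_pos ⟨Representation.Equiv.refl ρ⟩] at h4
  constructor
  · intro h
    rw [if_neg] at h5
    · exact (mul_eq_zero.mp h5).resolve_left (inv_ne_zero hne)
    · rintro ⟨e⟩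
      exact h (Representation.char_iso e).symm
  · intro h
    rw [← h]
    rw [inv_mul_eq_iff_eq_mul₀ hne, mul_one] at h4
    exact h4

/-- Distinct irreducible characters are linearly independent. -/
theorem linInd_Irr [Finite G] : LinearIndependent ℂ (fun χ : Irr G => (χ : G → ℂ)) := by
  classical
  have := Fintype.ofFinite G
  have hne : (Nat.card G : ℂ) ≠ 0 := by exact_mod_cast Nat.card_pos.ne'
  rw [linearIndependent_iff']
  intro s a ha ψ hψ
  have h1 : ∀ χ ∈ s, ∑ g : G, (χ : G → ℂ) g * (ψ : G → ℂ) g⁻¹ =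
      if χ = ψ then (Nat.card G : ℂ) else 0 := by
    intro χ _
    obtain ⟨V, _, _, _, ρ, hρ, hρ'⟩ := χ.2
    obtain ⟨W, _, _, _, σ, hσ, hσ'⟩ := ψ.2
    have := orth ρ σ hρ hσ
    rw [hρ', hσ'] at this
    split_ifs with h
    · exact this.2 (congrArg Subtype.val h)
    · exact this.1 (fun h' => h (Subtype.ext h'))
  have h2 : ∑ χ ∈ s, a χ * (∑ g : G, (χ : G → ℂ) g * (ψ : G → ℂ) g⁻¹) = 0 := by
    have h3 : ∀ g : G, ∑ χ ∈ s, a χ * (χ : G → ℂ) g = 0 := by
      intro g
      have := congrFun ha g
      simpa [Finset.sum_apply] using this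
    calc ∑ χ ∈ s, a χ * (∑ g : G, (χ : G → ℂ) g * (ψ : G → ℂ) g⁻¹)
        = ∑ g : G, (∑ χ ∈ s, a χ * (χ : G → ℂ) g) * (ψ : G → ℂ) g⁻¹ := by
          simp only [Finset.sum_mul, Finset.mul_sum]
          rw [Finset.sum_comm]
          refine Finset.sum_congr rfl fun g _ => Finset.sum_congr rfl fun χ _ => ?_
          ring
      _ = 0 := by simp [h3]
  rw [Finset.sum_congr rfl (fun χ hχ => by rw [h1 χ hχ])] at h2
  simpa [hψ, hne] using h2

/-- Summing a class function over conjugacy classes. -/
lemma sum_class [Fintype G] [Fintype (ConjClasses G)] (F : G → ℂ)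
    (hF : ∀ g h, IsConj g h → F g = F h) :
    ∑ g, F g = ∑ K : ConjClasses G, (Nat.card (conjugatesOf K.out) : ℂ) * F K.out := by
  classical
  rw [← Finset.sum_fiberwise Finset.univ (fun g : G => ConjClasses.mk g) F]
  refine Finset.sum_congr rfl fun K _ => ?_
  have hK : ConjClasses.mk K.out = K := Quotient.out_eq K
  have h0 : ∀ g : G, ConjClasses.mk g = K ↔ g ∈ conjugatesOf K.out := by
    intro g
    rw [conjugatesOf, Set.mem_ofPred_eq, ← ConjClasses.mk_eq_mk_iff_isConj, hK, eq_comm]
  have h1 : ∀ g ∈ Finset.univ.filter (fun g : G => ConjClasses.mk g = K), F g = F K.out := by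
    intro g hg
    rw [Finset.mem_filter] at hg
    apply hF
    rw [← ConjClasses.mk_eq_mk_iff_isConj, hg.2, hK]
  rw [Finset.sum_congr rfl h1, Finset.sum_const, nsmul_eq_mul]
  congr 2
  rw [Nat.card_eq_fintype_card, Fintype.card_of_subtype]
  intro g
  rw [Finset.mem_filter, h0 g]
  simp

lemma char_conj' {V : Type} [AddCommGroup V] [Module ℂ V] [FiniteDimensional ℂ V]
    (ρ : Representation ℂ G V) {g h : G} (hc : IsConj g h) : ρ.character g = ρ.character h := by
  obtain ⟨c, rfl⟩ := isConj_iff.mp hc
  rw [Representation.char_conj]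

end general

section grp

variable {S : Type} [Group S] [Fintype S] [DecidableEq S]

/-- The basic representation. -/
def rho0 (S : Type) [Group S] : Representation ℂ (GS S) (S → ℂ) where
  toFun g :=
    { toFun := fun f x => lam x g.left * f (g.right.1⁻¹ * x * g.right.2)
      map_add' := fun f f' => by funext x; simp [mul_add]
      map_smul' := fun c f => by funext x; simp; ring }
  map_one' := by
    refine LinearMap.ext fun f => ?_
    funext x
    simp [lam_one]
  map_mul' g g' := by
    refine LinearMap.ext fun f => ?_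
    funext x
    have h1 : lam x (phi S g.right g'.left) = lam (g.right.1⁻¹ * x * g.right.2) g'.left := rfl
    simp only [mul_left, mul_right, lam_mul, LinearMap.coe_mk, AddHom.coe_mk, Module.End.mul_apply,
      Prod.fst_mul, Prod.snd_mul, mul_inv_rev, h1, mul_assoc]

lemma rho0_apply (g : GS S) (f : S → ℂ) (x : S) :
    rho0 S g f x = lam x g.left * f (g.right.1⁻¹ * x * g.right.2) := rfl

lemma rho0_char : (rho0 S).character = chi0 := by
  funext g
  unfold Representation.character chi0
  rw [LinearMap.trace_eq_matrix_trace ℂ (Pi.basisFun ℂ S), Matrix.trace]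
  refine Finset.sum_congr rfl fun x _ => ?_
  rw [Matrix.diag_apply, LinearMap.toMatrix_apply, Pi.basisFun_apply, Pi.basisFun_repr, rho0_apply]
  split_ifs with h
  · rw [mul_assoc, ← h, inv_mul_cancel_left, Pi.single_eq_same, mul_one]
  · rw [Pi.single_eq_of_ne, mul_zero]
    intro h'
    apply h
    rw [mul_assoc, inv_mul_eq_iff_eq_mul] at h'
    exact h'.symm

lemma rho0_irr : (rho0 S).IsIrreducible := by
  have hne : (⊥ : Subrepresentation (rho0 S)) ≠ ⊤ := by
    intro h
    have h1 : (⊥ : Submodule ℂ (S → ℂ)) = ⊤ := congrArg Subrepresentation.toSubmodule h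
    exact bot_ne_top h1
  refine { exists_pair_ne := ⟨⊥, ⊤, hne⟩, eq_bot_or_eq_top := ?_ }
  intro W
  by_cases hW : ∃ f ∈ W.toSubmodule, f ≠ 0
  · right
    obtain ⟨f, hf, hf0⟩ := hW
    obtain ⟨x, hx⟩ := Function.ne_iff.mp hf0
    rw [Pi.zero_apply] at hx
    have h1 : (Pi.single x 1 : S → ℂ) ∈ W.toSubmodule := by
      have h2 := W.apply_mem_toSubmodule (inl (Pi.mulSingle x (-1) : S → ℤˣ)) hf
      have h3 := W.toSubmodule.smul_mem ((2 * f x)⁻¹) (W.toSubmodule.sub_mem hf h2)
      convert h3 using 1
      funext y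
      rw [Pi.smul_apply, Pi.sub_apply, rho0_apply]
      simp only [left_inl, right_inl, Prod.fst_one, Prod.snd_one, inv_one, one_mul, mul_one,
        smul_eq_mul]
      by_cases hy : y = x
      · subst hy
        have h6 : lam y (Pi.mulSingle y (-1) : S → ℤˣ) = -1 := by simp [lam]
        rw [Pi.single_eq_same, h6]
        field_simp
        ring
      · rw [Pi.single_eq_of_ne hy]
        unfold lam
        rw [Pi.mulSingle_eq_of_ne hy]
        simp
    have h4 : ∀ y, (Pi.single y 1 : S → ℂ) ∈ W.toSubmodule := by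
      intro y
      have h2 := W.apply_mem_toSubmodule (inr (y * x⁻¹, 1)) h1
      convert h2 using 1
      funext z
      rw [rho0_apply]
      simp only [left_inr, lam_one, right_inr, one_mul, mul_one, mul_inv_rev, inv_inv]
      by_cases hz : z = y
      · subst hz
        simp
      · rw [Pi.single_eq_of_ne hz, Pi.single_eq_of_ne]
        intro h'
        apply hz
        rw [mul_assoc, mul_eq_left, inv_mul_eq_one] at h'
        exact h'.symm
    apply Subrepresentation.toSubmodule_injective
    change W.toSubmodule = ⊤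
    rw [eq_top_iff]
    intro f _
    have h5 : f = ∑ y, f y • (Pi.single y 1 : S → ℂ) := by
      funext z
      simp [Finset.sum_apply, Pi.single_apply]
    rw [h5]
    exact W.toSubmodule.sum_mem fun y _ => W.toSubmodule.smul_mem _ (h4 y)
  · left
    push Not at hW
    apply Subrepresentation.toSubmodule_injective
    change W.toSubmodule = ⊥
    rw [eq_bot_iff]
    intro f hf
    rw [hW f hf]
    exact zero_mem _

lemma chi0_mem : (chi0 : GS S → ℂ) ∈ Irr (GS S) :=
  ⟨S → ℂ, inferInstance, inferInstance, inferInstance, rho0 S, rho0_irr, rho0_char⟩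

lemma chi0_one : (chi0 (1 : GS S)) = (Fintype.card S : ℂ) := by
  unfold chi0
  simp [lam_one]

lemma chi0_sq : ∑ n : S → ℤˣ, chi0 (inl n : GS S) * chi0 (inl n) = nn S * Fintype.card S := by
  unfold chi0
  simp only [right_inl, Prod.fst_one, Prod.snd_one, one_mul, mul_one, if_true, left_inl,
    Finset.sum_mul_sum]
  rw [Finset.sum_comm]
  have h1 : ∀ x : S, ∑ n : S → ℤˣ, ∑ y : S, lam x n * lam y n = nn S := by
    intro x
    rw [Finset.sum_comm, Finset.sum_eq_single x]
    · simp only [lam_sq, Finset.sum_const, Finset.card_univ, nsmul_eq_mul, mul_one]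
    · intro y _ hy
      exact lam_orth x y hy.symm
    · intro h; exact absurd (Finset.mem_univ x) h
  rw [Finset.sum_congr rfl fun x _ => h1 x]
  simp [mul_comm]

end grp

end Pool.Agent.helper49.Blk
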