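import Mathlib

set_option autoImplicit false

namespace Pool.Agent.helper49.McLain

/-! A group generated by elementary transvections indexed by a dense bounded linear order. -/

section general

variable {A : Type} [Ring A]

/-- Units congruent to one modulo the submodule `N`, together with their inverses. -/
def D (N : Submodule ℤ A) (hN : N * N ≤ N) : Subgroup Aˣ where
  carrier := {u | u.val - 1 ∈ N ∧ u⁻¹.val - 1 ∈ N}
  one_mem' := by simp
  mul_mem' := by
    rintro u v ⟨hu, hu'⟩ ⟨hv, hv'⟩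
    refine ⟨?_, ?_⟩
    · have : (u * v).val - 1 = (u.val - 1) * (v.val - 1) + (u.val - 1) + (v.val - 1) := by
        simp only [Units.val_mul]; noncomm_ring
      rw [this]
      exact N.add_mem (N.add_mem (hN (Submodule.mul_mem_mul hu hv)) hu) hv
    · have : (u * v)⁻¹.val - 1 =
          (v⁻¹.val - 1) * (u⁻¹.val - 1) + (v⁻¹.val - 1) + (u⁻¹.val - 1) := by
        simp only [mul_inv_rev, Units.val_mul]; noncomm_ring
      rw [this]
      exact N.add_mem (N.add_mem (hN (Submodule.mul_mem_mul hv' hu')) hv') hu'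
  inv_mem' := by
    rintro u ⟨hu, hu'⟩
    exact ⟨hu', by simpa using hu⟩

lemma mem_D {N : Submodule ℤ A} {hN : N * N ≤ N} {u : Aˣ} :
    u ∈ D N hN ↔ u.val - 1 ∈ N ∧ u⁻¹.val - 1 ∈ N := Iff.rfl

/-- The key estimate on commutators. -/
lemma comm_mem_aux {N P : Submodule ℤ A} (hNP : N * N ≤ P) (hPN : P * N ≤ P) (hN : N * N ≤ N)
    {u v : Aˣ} (hu : u ∈ D N hN) (hv : v ∈ D N hN) :
    (u * v * u⁻¹ * v⁻¹).val - 1 ∈ P := by
  have h1 : (u * v * u⁻¹ * v⁻¹).val - 1 =
      ((u.val - 1) * (v.val - 1) - (v.val - 1) * (u.val - 1)) +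
      ((u.val - 1) * (v.val - 1) - (v.val - 1) * (u.val - 1)) * ((u⁻¹ * v⁻¹).val - 1) := by
    have h2 : (u.val - 1) * (v.val - 1) - (v.val - 1) * (u.val - 1) =
      u.val * v.val - v.val * u.val := by noncomm_ring
    rw [h2]
    have h3 : v.val * u.val * (u⁻¹ * v⁻¹).val = 1 := by
      simp [Units.val_mul, mul_assoc]
    have h4 : (u * v * u⁻¹ * v⁻¹).val = u.val * v.val * (u⁻¹ * v⁻¹).val := by
      simp only [Units.val_mul, mul_assoc]
    rw [h4, mul_sub, sub_mul, h3]
    noncomm_ring
  rw [h1]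
  have h5 : ((u.val - 1) * (v.val - 1) - (v.val - 1) * (u.val - 1)) ∈ P :=
    P.sub_mem (hNP (Submodule.mul_mem_mul hu.1 hv.1)) (hNP (Submodule.mul_mem_mul hv.1 hu.1))
  have h6 : ((u⁻¹ * v⁻¹).val - 1) ∈ N :=
    (mul_mem (inv_mem hu) (inv_mem hv) : u⁻¹ * v⁻¹ ∈ D N hN).1
  exact P.add_mem h5 (hPN (Submodule.mul_mem_mul h5 h6))

lemma pow_mul_pow_le (N : Submodule ℤ A) (hN : N * N ≤ N) (k : ℕ) (hk : 1 ≤ k) :
    N ^ (k + 1) ≤ N ^ k := by
  induction k with
  | zero => omega
  | succ k ih =>
    rcases Nat.eq_zero_or_pos k with rfl | hk'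
    · simpa [pow_two] using hN
    · rw [pow_succ, pow_succ N k]
      exact mul_le_mul' (ih hk') le_rfl

lemma pow_sq_le (N : Submodule ℤ A) (hN : N * N ≤ N) (k : ℕ) (hk : 1 ≤ k) :
    N ^ k * N ^ k ≤ N ^ (k + 1) := by
  rw [← pow_add]
  have : ∀ m, N ^ (k + 1 + m) ≤ N ^ (k + 1) := by
    intro m
    induction m with
    | zero => exact le_rfl
    | succ m ih => exact (pow_mul_pow_le N hN (k + 1 + m) (by omega)).trans ih
  obtain ⟨m, rfl⟩ := Nat.exists_eq_add_of_le hk
  have := this m
  rw [show 1 + m + (1 + m) = 1 + m + 1 + m by ring]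
  exact this

lemma pow_sq_le' (N : Submodule ℤ A) (hN : N * N ≤ N) (k : ℕ) (hk : 1 ≤ k) :
    N ^ k * N ^ k ≤ N ^ k := (pow_sq_le N hN k hk).trans (pow_mul_pow_le N hN k hk)

/-- Derived series estimate. -/
lemma derived_le (N : Submodule ℤ A) (hN : N * N ≤ N) (H : Subgroup Aˣ)
    (hH : ∀ u ∈ H, u.val - 1 ∈ N) (k : ℕ) :
    ∀ u ∈ (derivedSeries H k), (u : Aˣ).val - 1 ∈ N ^ (k + 1) := by
  induction k with
  | zero =>
    intro u _
    simpa using hH u.1 u.2
  | succ k ih =>
    intro u hu
    have key : (derivedSeries H (k + 1)) ≤ (D (N ^ (k + 2)) (pow_sq_le' N hN (k + 2) (by omega))).comap H.subtype := by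
      rw [derivedSeries_succ, Subgroup.commutator_le]
      intro g₁ hg₁ g₂ hg₂
      have m1 : (g₁ : Aˣ) ∈ D (N ^ (k + 1)) (pow_sq_le' N hN (k + 1) (by omega)) :=
        ⟨ih g₁ hg₁, by simpa using ih g₁⁻¹ (inv_mem hg₁)⟩
      have m2 : (g₂ : Aˣ) ∈ D (N ^ (k + 1)) (pow_sq_le' N hN (k + 1) (by omega)) :=
        ⟨ih g₂ hg₂, by simpa using ih g₂⁻¹ (inv_mem hg₂)⟩
      have hPN : N ^ (k + 2) * N ^ (k + 1) ≤ N ^ (k + 2) := by
        calc N ^ (k + 2) * N ^ (k + 1) ≤ N ^ (k + 1) * N ^ (k + 1) :=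
              mul_le_mul' (pow_mul_pow_le N hN (k + 1) (by omega)) le_rfl
          _ ≤ N ^ (k + 2) := pow_sq_le N hN (k + 1) (by omega)
      rw [Subgroup.mem_comap, mem_D]
      refine ⟨?_, ?_⟩
      · have := comm_mem_aux (pow_sq_le N hN (k + 1) (by omega)) hPN _ m1 m2
        simpa [commutatorElement_def] using this
      · have := comm_mem_aux (pow_sq_le N hN (k + 1) (by omega)) hPN _ m2 m1
        simpa [commutatorElement_def, mul_assoc] using this
    exact (key hu).1

lemma solvable_of_nilp (N : Submodule ℤ A) (hN : N * N ≤ N) (n : ℕ) (hn : N ^ (n + 1) = ⊥)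
    (H : Subgroup Aˣ) (hH : ∀ u ∈ H, u.val - 1 ∈ N) : Group.IsSolvable H := by
  refine ⟨⟨n, ?_⟩⟩
  rw [eq_bot_iff]
  intro u hu
  have := derived_le N hN H hH n u hu
  rw [hn, Submodule.mem_bot, sub_eq_zero] at this
  rw [Subgroup.mem_bot]
  ext
  simpa using this

end general


variable {I : Type} [LinearOrder I]

/-- The ring of additive endomorphisms of the free abelian group on `I`. -/
abbrev R (I : Type) : Type := Module.End ℤ (I →₀ ℤ)

/-- Matrix unit. -/
noncomputable def e (i j : I) : R I := (Finsupp.lsingle i) ∘ₗ (Finsupp.lapply j)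

lemma e_mul (i j k l : I) : (e i j : R I) * e k l = if j = k then e i l else 0 := by
  ext x y
  by_cases h : j = k
  · subst h
    simp [e]
  · simp [e, h, Finsupp.single_apply]

lemma e_mul_self {i j : I} (h : i ≠ j) : (e i j : R I) * e i j = 0 := by
  rw [e_mul, if_neg h.symm]

omit [LinearOrder I] in
lemma e_ne {i j : I} {a : ℤ} (ha : a ≠ 0) : (a • e i j : R I) ≠ 0 := by
  intro h
  have := congrArg (fun f : R I => f (Finsupp.single j 1) i) h
  simp [e] at this
  exact ha this

/-- Elementary transvection as a unit. -/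
noncomputable def E {i j : I} (h : i < j) (a : ℤ) : (R I)ˣ where
  val := 1 + a • e i j
  inv := 1 - a • e i j
  val_inv := by
    have := e_mul_self h.ne
    simp only [mul_sub, add_mul, one_mul, mul_one, smul_mul_smul_comm, this, smul_zero]
    abel
  inv_val := by
    have := e_mul_self h.ne
    simp only [mul_add, sub_mul, one_mul, mul_one, smul_mul_smul_comm, this, smul_zero]
    abel

lemma E_val {i j : I} (h : i < j) (a : ℤ) : (E h a).val = 1 + a • e i j := rfl

lemma E_inv_val {i j : I} (h : i < j) (a : ℤ) : (E h a)⁻¹.val = 1 - a • e i j := rfl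

/-- commuting. -/
lemma E_comm {i j k l : I} (h : i < j) (h' : k < l) (a b : ℤ) (h1 : j ≠ k) (h2 : l ≠ i) :
    E h a * E h' b = E h' b * E h a := by
  apply Units.ext
  simp only [Units.val_mul, E_val]
  have e1 : (e i j : R I) * e k l = 0 := by rw [e_mul, if_neg h1]
  have e2 : (e k l : R I) * e i j = 0 := by rw [e_mul, if_neg h2]
  simp only [mul_add, add_mul, one_mul, mul_one, smul_mul_smul_comm, e1, e2, smul_zero]
  abel

/-- commutator. -/
lemma E_commutator {i j k : I} (h : i < j) (h' : j < k) (a b : ℤ) :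
    E h a * E h' b = E (h.trans h') (a * b) * (E h' b * E h a) := by
  apply Units.ext
  simp only [Units.val_mul, E_val]
  have e1 : (e i j : R I) * e j k = e i k := by rw [e_mul, if_pos rfl]
  have e2 : (e j k : R I) * e i j = 0 := by rw [e_mul, if_neg (h.trans h').ne']
  have e3 : (e i k : R I) * e j k = 0 := by rw [e_mul, if_neg h'.ne']
  have e4 : (e i k : R I) * e i j = 0 := by rw [e_mul, if_neg (h.trans h').ne']
  simp only [mul_add, add_mul, one_mul, mul_one, smul_mul_smul_comm, e1, e2, e3, e4, smul_zero,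
    add_zero]
  abel

/-- Powers of a transvection. -/
lemma E_mul {i j : I} (h : i < j) (a b : ℤ) : E h a * E h b = E h (a + b) := by
  apply Units.ext
  have := e_mul_self h.ne
  simp only [Units.val_mul, E_val, mul_add, add_mul, one_mul, mul_one, smul_mul_smul_comm, this,
    smul_zero, add_zero, add_smul]
  abel

lemma E_zero {i j : I} (h : i < j) : E h 0 = 1 := by
  apply Units.ext
  simp [E_val]

lemma E_zpow {i j : I} (h : i < j) (n : ℤ) : (E h 1) ^ n = E h n := by
  induction n using Int.induction_on with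
  | zero => simp [E_zero]
  | succ n ih => rw [zpow_add_one, ih, E_mul]
  | pred n ih =>
    rw [zpow_sub_one, ih, mul_inv_eq_iff_eq_mul, E_mul]
    congr 1
    ring

lemma E_eq_one {i j : I} (h : i < j) (a : ℤ) (ha : E h a = 1) : a = 0 := by
  by_contra hne
  have := congrArg Units.val ha
  rw [E_val, Units.val_one] at this
  exact e_ne hne (add_eq_left.mp this)

/-- The generating set. -/
def gens (F : Set I) : Set (R I)ˣ :=
  {u | ∃ (i j : I) (h : i < j) (a : ℤ), i ∈ F ∧ j ∈ F ∧ u = E h a}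

/-- The McLain group. -/
noncomputable def M (I : Type) [LinearOrder I] : Subgroup (R I)ˣ :=
  Subgroup.closure (gens (Set.univ : Set I))

/-- Element of the group. -/
lemma E_mem {i j : I} (h : i < j) (a : ℤ) : E h a ∈ M I :=
  Subgroup.subset_closure ⟨i, j, h, a, trivial, trivial, rfl⟩

/-- Element of the group. -/
noncomputable def EM {i j : I} (h : i < j) (a : ℤ) : M I := ⟨E h a, E_mem h a⟩

/-- The strictly triangular matrices with support in `F`, of depth at least `k`. -/
noncomputable def N (F : Finset I) (k : ℕ) : Submodule ℤ (R I) :=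
  Submodule.span ℤ {x | ∃ i j : I, i ∈ F ∧ j ∈ F ∧ i < j ∧
    k ≤ (F.filter (fun l => i < l ∧ l ≤ j)).card ∧ x = e i j}

lemma N_mul (F : Finset I) (k l : ℕ) : N F k * N F l ≤ N F (k + l) := by
  unfold N
  rw [Submodule.span_mul_span, Submodule.span_le]
  rintro _ ⟨_, ⟨i, j, hi, hj, hij, hk, rfl⟩, _, ⟨i', j', hi', hj', hij', hk', rfl⟩, rfl⟩
  simp only [SetLike.mem_coe]
  rw [e_mul]
  split_ifs with h
  · subst h
    apply Submodule.subset_span
    refine ⟨i, j', hi, hj', hij.trans hij', ?_, rfl⟩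
    have : F.filter (fun l => i < l ∧ l ≤ j') =
        F.filter (fun l => i < l ∧ l ≤ j) ∪ F.filter (fun l => j < l ∧ l ≤ j') := by
      ext x
      simp only [Finset.mem_filter, Finset.mem_union]
      constructor
      · rintro ⟨h1, h2, h3⟩
        rcases le_or_gt x j with h4 | h4
        · exact Or.inl ⟨h1, h2, h4⟩
        · exact Or.inr ⟨h1, h4, h3⟩
      · rintro (⟨h1, h2, h3⟩ | ⟨h1, h2, h3⟩)
        · exact ⟨h1, h2, h3.trans hij'.le⟩
        · exact ⟨h1, hij.trans h2, h3⟩
    rw [this, Finset.card_union_of_disjoint]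
    · omega
    · rw [Finset.disjoint_left]
      intro x h1 h2
      simp only [Finset.mem_filter] at h1 h2
      exact absurd h2.2.1 (not_lt.mpr h1.2.2)
  · exact Submodule.zero_mem _

lemma N_mono (F : Finset I) {k l : ℕ} (h : k ≤ l) : N F l ≤ N F k := by
  unfold N
  apply Submodule.span_mono
  rintro _ ⟨i, j, hi, hj, hij, hk, rfl⟩
  exact ⟨i, j, hi, hj, hij, h.trans hk, rfl⟩

lemma N_pow (F : Finset I) (k : ℕ) : N F 1 ^ (k + 1) ≤ N F (k + 1) := by
  induction k with
  | zero => simp
  | succ k ih =>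
    have h := pow_succ (N F 1) (k + 1)
    rw [h]
    exact (mul_le_mul' ih le_rfl).trans (N_mul F (k + 1) 1)

lemma N_top (F : Finset I) : N F (F.card + 1) = ⊥ := by
  unfold N
  rw [Submodule.span_eq_bot]
  rintro _ ⟨i, j, hi, hj, hij, hk, rfl⟩
  exact absurd (Finset.card_filter_le F (fun l => i < l ∧ l ≤ j)) (by omega)

lemma e_mem_N (F : Finset I) {i j : I} (hi : i ∈ F) (hj : j ∈ F) (h : i < j) :
    e i j ∈ N F 1 := by
  apply Submodule.subset_span
  refine ⟨i, j, hi, hj, h, ?_, rfl⟩
  rw [Nat.one_le_iff_ne_zero, Finset.card_ne_zero]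
  exact ⟨j, by simp [hj, h]⟩

lemma N_mul_self (F : Finset I) : N F 1 * N F 1 ≤ N F 1 :=
  (N_mul F 1 1).trans (N_mono F (by norm_num))

lemma closure_gens_le (F : Finset I) :
    Subgroup.closure (gens (F : Set I)) ≤ D (N F 1) (N_mul_self F) := by
  rw [Subgroup.closure_le]
  rintro _ ⟨i, j, h, a, hi, hj, rfl⟩
  refine ⟨?_, ?_⟩
  · rw [E_val, add_sub_cancel_left]
    exact Submodule.smul_mem _ _ (e_mem_N F hi hj h)
  · rw [E_inv_val, sub_sub_cancel_left]
    exact Submodule.neg_mem _ (Submodule.smul_mem _ _ (e_mem_N F hi hj h))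

lemma solvable_closure_gens (F : Finset I) (H : Subgroup (R I)ˣ)
    (hH : H ≤ Subgroup.closure (gens (F : Set I))) : Group.IsSolvable H := by
  refine solvable_of_nilp (N F 1) (N_mul_self F) F.card ?_ H ?_
  · rw [eq_bot_iff]
    exact (N_pow F F.card).trans (N_top F).le
  · intro u hu
    exact (closure_gens_le F (hH hu)).1

lemma exists_finset (u : (R I)ˣ) (hu : u ∈ M I) :
    ∃ F : Finset I, u ∈ Subgroup.closure (gens (F : Set I)) := by
  classical
  unfold M at hu
  induction hu using Subgroup.closure_induction with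
  | mem x hx =>
    obtain ⟨i, j, h, a, -, -, rfl⟩ := hx
    exact ⟨{i, j}, Subgroup.subset_closure ⟨i, j, h, a, by simp, by simp, rfl⟩⟩
  | one => exact ⟨∅, one_mem _⟩
  | mul x y hx hy ihx ihy =>
    obtain ⟨F, hF⟩ := ihx
    obtain ⟨F', hF'⟩ := ihy
    refine ⟨F ∪ F', mul_mem ?_ ?_⟩
    · refine Subgroup.closure_mono ?_ hF
      rintro _ ⟨i, j, h, a, hi, hj, rfl⟩
      exact ⟨i, j, h, a, by simp at hi ⊢; exact Or.inl hi, by simp at hj ⊢; exact Or.inl hj, rfl⟩
    · refine Subgroup.closure_mono ?_ hF'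
      rintro _ ⟨i, j, h, a, hi, hj, rfl⟩
      exact ⟨i, j, h, a, by simp at hi ⊢; exact Or.inr hi, by simp at hj ⊢; exact Or.inr hj, rfl⟩
  | inv x hx ih =>
    obtain ⟨F, hF⟩ := ih
    exact ⟨F, inv_mem hF⟩

lemma gens_mono {F F' : Set I} (h : F ⊆ F') : gens F ⊆ gens F' := by
  rintro _ ⟨i, j, h', a, hi, hj, rfl⟩
  exact ⟨i, j, h', a, h hi, h hj, rfl⟩

/-- The McLain group is locally solvable. -/
theorem M_locally_solvable (S : Finset (M I)) :
    Group.IsSolvable (Subgroup.closure (S : Set (M I))) := by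
  classical
  choose F hF using fun u : M I => exists_finset u.1 u.2
  have key : (Subgroup.closure (S : Set (M I))).map (M I).subtype ≤
      Subgroup.closure (gens ((S.biUnion F : Finset I) : Set I)) := by
    rw [Subgroup.map_le_iff_le_comap, Subgroup.closure_le]
    intro u hu
    refine Subgroup.closure_mono (gens_mono ?_) (hF u)
    intro x hx
    simp only [Finset.mem_coe, Finset.mem_biUnion]
    exact ⟨u, hu, hx⟩
  have := solvable_closure_gens _ _ key
  exact Group.isSolvable_of_isSolvable_injective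
    (f := ((M I).subtype.subgroupMap (Subgroup.closure (S : Set (M I)))))
    (by
      intro a b hab
      have := congrArg Subtype.val hab
      simp only [MonoidHom.subgroupMap_apply_coe] at this
      exact Subtype.ext (Subtype.ext this))

/-- Infinite families of almost commuting pairs in a finite-dimensional algebra. -/
lemma exists_commute {F A ι : Type} [Field F] [Ring A] [Algebra F A] [FiniteDimensional F A]
    [Infinite ι] (x y : ι → A) (h : ∀ i j, i ≠ j → x i * y j = y j * x i) :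
    ∃ i, x i * y i = y i * x i := by
  by_contra hcon
  push Not at hcon
  have hli : LinearIndependent F y := by
    rw [linearIndependent_iff']
    intro s g hg i hi
    have h1 : ∑ j ∈ s, g j • (x i * y j - y j * x i) = 0 := by
      have h2 : x i * (∑ j ∈ s, g j • y j) - (∑ j ∈ s, g j • y j) * x i = 0 := by
        rw [hg]; simp
      rw [Finset.mul_sum, Finset.sum_mul, ← Finset.sum_sub_distrib] at h2
      rw [← h2]
      refine Finset.sum_congr rfl fun j _ => ?_
      rw [smul_sub, mul_smul_comm, smul_mul_assoc]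
    rw [Finset.sum_eq_single i] at h1
    · rcases smul_eq_zero.mp h1 with h3 | h3
      · exact h3
      · exact absurd (sub_eq_zero.mp h3) (hcon i)
    · intro j _ hj
      rw [h i j hj.symm, sub_self, smul_zero]
    · intro hn; exact absurd hi hn
  have := hli.finite
  exact not_finite ι

/-- No nontrivial finite-dimensional representation of the McLain group of a dense order. -/
theorem M_rep_trivial [DenselyOrdered I] {F A : Type} [Field F] [Ring A] [Algebra F A]
    [FiniteDimensional F A] (ρ : M I →* A) (g : M I) : ρ g = 1 := by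
  have key : ∀ (i k : I) (h : i < k) (a : ℤ), ρ (EM h a) = 1 := by
    intro i k h a
    have hinf : Infinite (Set.Ioo i k) := (Set.Ioo_infinite h).to_subtype
    obtain ⟨j, hj⟩ := exists_commute (F := F) (fun j : Set.Ioo i k => ρ (EM j.2.1 a))
      (fun j : Set.Ioo i k => ρ (EM j.2.2 1)) (by
        intro j j' hne
        rw [← map_mul, ← map_mul]
        congr 1
        apply Subtype.ext
        exact E_comm j.2.1 j'.2.2 a 1 (fun h' => hne (Subtype.ext h')) h.ne')
    have h2 : EM j.2.1 a * EM j.2.2 1 = EM h a * (EM j.2.2 1 * EM j.2.1 a) := by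
      apply Subtype.ext
      have := E_commutator j.2.1 j.2.2 a 1
      rw [mul_one] at this
      exact this
    have h3 := congrArg ρ h2
    rw [map_mul, map_mul ρ (EM h a), map_mul ρ (EM j.2.2 1), hj] at h3
    have h4 : IsUnit (ρ (EM j.2.2 1) * ρ (EM j.2.1 a)) := by
      rw [← map_mul]
      exact (Group.isUnit _).map ρ
    exact (h4.mul_right_cancel (by rw [one_mul]; exact h3)).symm
  have h1 : ∀ (u : (R I)ˣ) (hu : u ∈ M I), ρ ⟨u, hu⟩ = 1 := by
    intro u hu
    unfold M at hu
    induction hu using Subgroup.closure_induction with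
    | mem x hx =>
      obtain ⟨i, j, h, a, -, -, rfl⟩ := hx
      exact key i j h a
    | one => exact map_one ρ
    | mul x y hx hy ihx ihy =>
      have : (⟨x * y, mul_mem hx hy⟩ : M I) = ⟨x, hx⟩ * ⟨y, hy⟩ := rfl
      rw [this, map_mul, ihx, ihy, one_mul]
    | inv x hx ih =>
      have h5 : ρ (⟨x, hx⟩⁻¹ * ⟨x, hx⟩) = 1 := by rw [inv_mul_cancel, map_one]
      rw [map_mul, ih, mul_one] at h5
      exact h5
  exact h1 g.1 g.2

/-- The central element. -/
noncomputable def zc (I : Type) [LinearOrder I] [BoundedOrder I] [Nontrivial I] : M I :=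
  EM (bot_lt_top : (⊥ : I) < ⊤) 1

lemma zc_central [BoundedOrder I] [Nontrivial I] (g : M I) : zc I * g = g * zc I := by
  have h1 : ∀ (u : (R I)ˣ) (hu : u ∈ M I),
      E (bot_lt_top : (⊥ : I) < ⊤) 1 * u = u * E (bot_lt_top : (⊥ : I) < ⊤) 1 := by
    intro u hu
    unfold M at hu
    induction hu using Subgroup.closure_induction with
    | mem x hx =>
      obtain ⟨i, j, h, a, -, -, rfl⟩ := hx
      refine E_comm _ _ _ _ ?_ ?_
      · intro h'; exact absurd (h' ▸ h) (not_lt.mpr le_top)
      · intro h'; exact absurd (h' ▸ h) (not_lt.mpr bot_le)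
    | one => simp
    | mul x y hx hy ihx ihy => rw [← mul_assoc, ihx, mul_assoc, ihy, mul_assoc]
    | inv x hx ih =>
      rw [eq_inv_mul_iff_mul_eq, ← mul_assoc, ← ih, mul_assoc, mul_inv_cancel, mul_one]
  exact Subtype.ext (h1 g.1 g.2)

lemma zc_infinite [BoundedOrder I] [Nontrivial I] (n : ℤ) (h : zc I ^ n = 1) : n = 0 := by
  have h1 := congrArg Subtype.val h
  have h2 : (zc I ^ n).val = (E (bot_lt_top : (⊥ : I) < ⊤) 1) ^ n := rfl
  rw [h2, E_zpow] at h1
  exact E_eq_one _ _ h1

end Pool.Agent.helper49.McLain
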