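import Mathlib
import Pool.Agent.helper49.McLain

set_option autoImplicit false

namespace Pool.Agent.helper49.TwoTrans

/-! ### The semilinear affine group -/

section affine

variable {Γ K : Type} [Group Γ] [Field K] (τ : Γ →* (K ≃+* K))

/-- Pairs of a group element and a semilinear affine permutation with that automorphism part. -/
def P : Subgroup (Γ × Equiv.Perm K) where
  carrier := {s | ∃ (c : Kˣ) (d : K), ∀ y, s.2 y = c * τ s.1 y + d}
  one_mem' := ⟨1, 0, fun y => by simp⟩
  mul_mem' := by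
    rintro ⟨a, p⟩ ⟨b, q⟩ ⟨c, d, h⟩ ⟨c', d', h'⟩
    refine ⟨c * Units.map (τ a : K →* K) c', c * τ a d' + d, fun y => ?_⟩
    simp only at h h'
    simp only [Prod.mk_mul_mk, Equiv.Perm.mul_apply, h, h', map_add, map_mul, Units.val_mul,
      Units.coe_map, MonoidHom.coe_coe, RingAut.mul_apply]
    ring
  inv_mem' := by
    rintro ⟨a, p⟩ ⟨c, d, h⟩
    refine ⟨Units.map (τ a⁻¹ : K →* K) c⁻¹, - (τ a⁻¹ (c⁻¹.val * d)), fun y => ?_⟩
    simp only at h
    simp only [Prod.inv_mk, Equiv.Perm.inv_def, Equiv.symm_apply_eq, h, Units.coe_map,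
      MonoidHom.coe_coe, ← map_mul, ← sub_eq_add_neg, ← map_sub]
    rw [← RingAut.mul_apply, ← map_mul, mul_inv_cancel, map_one, RingAut.one_apply, ← mul_sub,
      Units.mul_inv_cancel_left]
    ring

lemma mem_P {s : Γ × Equiv.Perm K} : s ∈ P τ ↔ ∃ (c : Kˣ) (d : K), ∀ y, s.2 y = c * τ s.1 y + d :=
  Iff.rfl

/-- The two-transitive group. -/
def G : Subgroup (Equiv.Perm K) := (P τ).map (MonoidHom.snd Γ (Equiv.Perm K))

lemma mem_G {p : Equiv.Perm K} : p ∈ G τ ↔ ∃ a, (a, p) ∈ P τ := by
  unfold G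
  rw [Subgroup.mem_map]
  constructor
  · rintro ⟨⟨a, q⟩, h, rfl⟩
    exact ⟨a, h⟩
  · rintro ⟨a, h⟩
    exact ⟨(a, p), h, rfl⟩

/-- Affine permutation. -/
noncomputable def aff (c : Kˣ) (d : K) : Equiv.Perm K where
  toFun y := c * y + d
  invFun y := c⁻¹.val * (y - d)
  left_inv y := by simp
  right_inv y := by simp

lemma aff_apply (c : Kˣ) (d y : K) : aff c d y = c * y + d := rfl

lemma aff_mem (c : Kˣ) (d : K) : aff c d ∈ G τ :=
  (mem_G τ).mpr ⟨1, c, d, fun y => by simp [aff_apply]⟩

/-- Automorphism as permutation. -/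
def toPerm : Γ →* Equiv.Perm K where
  toFun a := (τ a).toEquiv
  map_one' := by rw [map_one]; rfl
  map_mul' a b := by rw [map_mul]; rfl

lemma toPerm_apply (a : Γ) (y : K) : toPerm τ a y = τ a y := rfl

lemma toPerm_mem (a : Γ) : toPerm τ a ∈ G τ :=
  (mem_G τ).mpr ⟨a, 1, 0, fun y => by simp [toPerm_apply]⟩

lemma two_trans : MulAction.IsMultiplyPretransitive (G τ) K 2 := by
  rw [MulAction.is_two_pretransitive_iff]
  intro a b c d hab hcd
  have h1 : b - a ≠ 0 := sub_ne_zero.mpr hab.symm
  have h2 : d - c ≠ 0 := sub_ne_zero.mpr hcd.symm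
  refine ⟨⟨aff (Units.mk0 ((d - c) / (b - a)) (div_ne_zero h2 h1))
    (c - (d - c) / (b - a) * a), aff_mem τ _ _⟩, ?_, ?_⟩
  · change aff _ _ a = c
    rw [aff_apply]
    simp
  · change aff _ _ b = d
    rw [aff_apply, Units.val_mk0]
    field_simp
    ring

lemma infinite_G [Infinite K] : Infinite (G τ) := by
  refine Infinite.of_injective (fun d : K => (⟨aff 1 d, aff_mem τ 1 d⟩ : G τ)) ?_
  intro d d' h
  have := congrArg (fun p : G τ => p.1 0) h
  simpa [aff_apply] using this

/-- Local solvability of point stabilizers. -/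
lemma sol_aux (hsol : ∀ S : Finset Γ, Group.IsSolvable (Subgroup.closure (S : Set Γ)))
    (x : K) (S : Finset (Γ × Equiv.Perm K)) (hS : ∀ s ∈ S, s ∈ P τ ∧ s.2 x = x) :
    Group.IsSolvable (Subgroup.closure (S : Set (Γ × Equiv.Perm K))) := by
  classical
  set H := Subgroup.closure (S : Set (Γ × Equiv.Perm K)) with hH
  have hP : H ≤ P τ := (Subgroup.closure_le _).mpr fun s hs => (hS s hs).1
  have hx : ∀ s ∈ H, s.2 x = x := by
    intro s hs
    induction hs using Subgroup.closure_induction with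
    | mem s hs => exact (hS s hs).2
    | one => rfl
    | mul s t _ _ hs ht => rw [Prod.snd_mul, Equiv.Perm.mul_apply, ht, hs]
    | inv s _ hs => rw [Prod.snd_inv, Equiv.Perm.inv_eq_iff_eq, hs]
  have hmap : H.map (MonoidHom.fst Γ (Equiv.Perm K)) =
      Subgroup.closure ((S.image Prod.fst : Finset Γ) : Set Γ) := by
    rw [hH, MonoidHom.map_closure]
    simp
  have h1 : Group.IsSolvable (H.map (MonoidHom.fst Γ (Equiv.Perm K))) := by
    rw [hmap]; exact hsol _
  let g : H →* H.map (MonoidHom.fst Γ (Equiv.Perm K)) :=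
    (MonoidHom.fst Γ (Equiv.Perm K)).subgroupMap H
  have h2 : Group.IsSolvable g.ker := by
    apply Group.isSolvable_of_comm
    rintro ⟨⟨⟨a, p⟩, ha⟩, ha'⟩ ⟨⟨⟨b, q⟩, hb⟩, hb'⟩
    have ha1 : a = 1 := by
      have := congrArg Subtype.val (MonoidHom.mem_ker.mp ha')
      exact this
    have hb1 : b = 1 := by
      have := congrArg Subtype.val (MonoidHom.mem_ker.mp hb')
      exact this
    subst ha1 hb1
    apply Subtype.ext
    apply Subtype.ext
    change (1 * 1, p * q) = (1 * 1, q * p)
    congr 1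
    obtain ⟨c, d, h⟩ := hP ha
    obtain ⟨c', d', h'⟩ := hP hb
    have hxa := hx _ ha
    have hxb := hx _ hb
    simp only [map_one, RingAut.one_apply] at h h' hxa hxb
    rw [h] at hxa
    rw [h'] at hxb
    ext y
    simp only [Equiv.Perm.mul_apply, h, h']
    have e1 : d = x - c * x := by linear_combination hxa
    have e2 : d' = x - c' * x := by linear_combination hxb
    rw [e1, e2]
    ring
  exact Group.isSolvable_of_ker_le_range g.ker.subtype g (by simp)

lemma sol (hsol : ∀ S : Finset Γ, Group.IsSolvable (Subgroup.closure (S : Set Γ)))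
    (x : K) (S : Finset (G τ)) (hS : (S : Set (G τ)) ⊆ (MulAction.stabilizer (G τ) x : Set (G τ))) :
    Group.IsSolvable (Subgroup.closure (S : Set (G τ))) := by
  classical
  choose a ha using fun p : G τ => (mem_G τ).mp p.2
  let T : Finset (Γ × Equiv.Perm K) := S.image (fun p => (a p, p.1))
  have hT : Group.IsSolvable (Subgroup.closure (T : Set (Γ × Equiv.Perm K))) := by
    apply sol_aux τ hsol x
    intro s hs
    simp only [T, Finset.mem_image] at hs
    obtain ⟨p, hp, rfl⟩ := hs
    exact ⟨ha p, hS hp⟩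
  have h1 : (Subgroup.closure (T : Set (Γ × Equiv.Perm K))).map
      (MonoidHom.snd Γ (Equiv.Perm K)) = (Subgroup.closure (S : Set (G τ))).map (G τ).subtype := by
    rw [MonoidHom.map_closure, MonoidHom.map_closure]
    congr 1
    ext p
    simp only [T, Finset.coe_image, Set.mem_image]
    constructor
    · rintro ⟨_, ⟨q, hq, rfl⟩, rfl⟩
      exact ⟨q, hq, rfl⟩
    · rintro ⟨q, hq, rfl⟩
      exact ⟨_, ⟨q, hq, rfl⟩, rfl⟩
  have h2 : Group.IsSolvable ((Subgroup.closure (T : Set (Γ × Equiv.Perm K))).map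
      (MonoidHom.snd Γ (Equiv.Perm K))) :=
    Group.isSolvable_of_surjective (MonoidHom.subgroupMap_surjective _ _)
  rw [h1] at h2
  exact Group.isSolvable_of_isSolvable_injective
    (f := (G τ).subtype.subgroupMap (Subgroup.closure (S : Set (G τ))))
    (by
      intro a b hab
      have := congrArg Subtype.val hab
      simp only [MonoidHom.subgroupMap_apply_coe] at this
      exact Subtype.ext (Subtype.ext this))

/-- Every finite-dimensional representation is trivial. -/
lemma rep_trivial (hrep : ∀ (F A : Type) [Field F] [Ring A] [Algebra F A] [FiniteDimensional F A]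
      (ρ : Γ →* A) (g : Γ), ρ g = 1)
    [Infinite K] (z : Γ) (hz : ∀ x : K, τ z x = x ^ 2)
    {F A : Type} [Field F] [Ring A] [Algebra F A] [FiniteDimensional F A]
    (ρ : G τ →* A) (g : G τ) : ρ g = 1 := by
  -- step one
  have s1 : ∀ a : Γ, ρ ⟨toPerm τ a, toPerm_mem τ a⟩ = 1 := by
    intro a
    exact hrep F A (ρ.comp ((toPerm τ).codRestrict (G τ) (toPerm_mem τ))) a
  -- step two
  have s2 : ∀ c : Kˣ, ρ ⟨aff c 0, aff_mem τ c 0⟩ = 1 := by
    intro c
    have e1 : (⟨toPerm τ z, toPerm_mem τ z⟩ : G τ) * ⟨aff c 0, aff_mem τ c 0⟩ =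
        ⟨aff c 0, aff_mem τ c 0⟩ * ⟨aff c 0, aff_mem τ c 0⟩ * ⟨toPerm τ z, toPerm_mem τ z⟩ := by
      apply Subtype.ext
      ext y
      change toPerm τ z (aff c 0 y) = aff c 0 (aff c 0 (toPerm τ z y))
      simp only [toPerm_apply, aff_apply, hz]
      ring
    have e2 := congrArg ρ e1
    rw [map_mul, map_mul, map_mul, s1, one_mul, mul_one] at e2
    have e3 : IsUnit (ρ ⟨aff c 0, aff_mem τ c 0⟩) := (Group.isUnit _).map ρ
    exact (e3.mul_left_cancel (by rw [mul_one]; exact e2)).symm
  -- step three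
  have s3 : ∀ d : K, ρ ⟨aff 1 d, aff_mem τ 1 d⟩ = 1 := by
    intro d
    classical
    obtain ⟨c, hc⟩ := Infinite.exists_notMem_finset ({0, 1} : Finset K)
    simp only [Finset.mem_insert, Finset.mem_singleton, not_or] at hc
    obtain ⟨hc0, hc1⟩ := hc
    have hc2 : c - 1 ≠ 0 := sub_ne_zero.mpr hc1
    set u : Kˣ := Units.mk0 c hc0 with hu
    set d' : K := d / (c - 1) with hd'
    have e1 : (⟨aff u 0, aff_mem τ u 0⟩ : G τ) * ⟨aff 1 d', aff_mem τ 1 d'⟩ =
        ⟨aff 1 d, aff_mem τ 1 d⟩ * (⟨aff 1 d', aff_mem τ 1 d'⟩ * ⟨aff u 0, aff_mem τ u 0⟩) := by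
      apply Subtype.ext
      ext y
      change aff u 0 (aff 1 d' y) = aff 1 d (aff 1 d' (aff u 0 y))
      simp only [aff_apply, hu, Units.val_mk0, Units.val_one, hd']
      field_simp
      ring
    have e2 := congrArg ρ e1
    rw [map_mul, map_mul, map_mul, s2, one_mul, mul_one] at e2
    have e3 : IsUnit (ρ ⟨aff 1 d', aff_mem τ 1 d'⟩) := (Group.isUnit _).map ρ
    exact (e3.mul_right_cancel (by rw [one_mul]; exact e2)).symm
  -- step four
  obtain ⟨p, hp⟩ := g
  obtain ⟨a, c, d, h⟩ := (mem_G τ).mp hp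
  have e1 : (⟨p, hp⟩ : G τ) = ⟨aff 1 d, aff_mem τ 1 d⟩ * (⟨aff c 0, aff_mem τ c 0⟩ *
      ⟨toPerm τ a, toPerm_mem τ a⟩) := by
    apply Subtype.ext
    ext y
    change p y = aff 1 d (aff c 0 (toPerm τ a y))
    simp only [aff_apply, toPerm_apply]
    simp only at h
    rw [h]
    simp
  rw [e1, map_mul, map_mul, s1, s2, s3, one_mul, one_mul]

end affine

/-! ### The field -/

section field

variable (Γ : Type) [Group Γ] (z : Γ)

/-- The coinduced module. -/
def Lam : Submodule ℚ (Γ → ℚ) where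
  carrier := {f | ∀ g, f (z * g) = 2 * f g}
  zero_mem' := by intro g; simp
  add_mem' := by
    intro f f' h h' g
    simp only [Pi.add_apply, h g, h' g]
    ring
  smul_mem' := by
    intro c f h g
    simp only [Pi.smul_apply, h g, smul_eq_mul]
    ring

/-- Right translation. -/
def act : Γ →* MulAut (Multiplicative (Lam Γ z)) where
  toFun g :=
    { toFun := fun f => Multiplicative.ofAdd ⟨fun x => f.toAdd.1 (x * g), fun x => by
        change f.toAdd.1 (z * x * g) = _
        rw [mul_assoc]; exact f.toAdd.2 (x * g)⟩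
      invFun := fun f => Multiplicative.ofAdd ⟨fun x => f.toAdd.1 (x * g⁻¹), fun x => by
        change f.toAdd.1 (z * x * g⁻¹) = _
        rw [mul_assoc]; exact f.toAdd.2 (x * g⁻¹)⟩
      left_inv := fun f => by
        apply Multiplicative.toAdd.injective
        apply Subtype.ext
        funext x
        simp
      right_inv := fun f => by
        apply Multiplicative.toAdd.injective
        apply Subtype.ext
        funext x
        simp
      map_mul' := fun f f' => rfl }
  map_one' := by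
    refine MulEquiv.ext fun f => ?_
    apply Multiplicative.toAdd.injective
    apply Subtype.ext
    funext x
    change f.toAdd.1 (x * 1) = f.toAdd.1 x
    rw [mul_one]
  map_mul' g h := by
    refine MulEquiv.ext fun f => ?_
    apply Multiplicative.toAdd.injective
    apply Subtype.ext
    funext x
    change f.toAdd.1 (x * (g * h)) = f.toAdd.1 (x * g * h)
    rw [mul_assoc]

lemma act_z (hz : ∀ g, z * g = g * z) (f : Multiplicative (Lam Γ z)) : act Γ z z f = f ^ 2 := by
  apply Multiplicative.toAdd.injective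
  apply Subtype.ext
  funext x
  have h1 : (Multiplicative.toAdd (act Γ z z f)).1 x = f.toAdd.1 (x * z) := rfl
  have h2 : (Multiplicative.toAdd (f ^ 2)).1 x = 2 * f.toAdd.1 x := by
    simp
  rw [h1, h2, ← hz]
  exact f.toAdd.2 x

/-- The group algebra. -/
abbrev Alg : Type := MonoidAlgebra (ZMod 2) (Multiplicative (Lam Γ z))

/-- action on the algebra -/
noncomputable def actAlg : Γ →* (Alg Γ z ≃+* Alg Γ z) where
  toFun g := (MonoidAlgebra.domCongr (ZMod 2) (ZMod 2) (act Γ z g)).toRingEquiv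
  map_one' := by
    rw [map_one]
    ext x
    simp
    rfl
  map_mul' g h := by
    rw [map_mul]
    ext x
    simp
    rfl

instance charAlg : CharP (Alg Γ z) 2 :=
  charP_of_injective_algebraMap (algebraMap (ZMod 2) (Alg Γ z)).injective 2

lemma frob_alg (hz : ∀ g, z * g = g * z) (x : Alg Γ z) : actAlg Γ z z x = x ^ 2 := by
  have h : ((actAlg Γ z z : Alg Γ z ≃+* Alg Γ z) : Alg Γ z →+* Alg Γ z) = frobenius (Alg Γ z) 2 := by
    apply MonoidAlgebra.ringHom_ext
    · intro r
      have hr : r ^ 2 = r := by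
        revert r; decide
      simp [actAlg, frobenius_def, MonoidAlgebra.single_pow, hr]
    · intro m
      simp [actAlg, frobenius_def, MonoidAlgebra.single_pow, act_z Γ z hz]
  have := congrArg (fun f : Alg Γ z →+* Alg Γ z => f x) h
  simpa [frobenius_def] using this

/-- action on the field -/
noncomputable def tau (K : Type) [Field K] [Algebra (Alg Γ z) K] [IsFractionRing (Alg Γ z) K] :
    Γ →* (K ≃+* K) :=
  (IsFractionRing.ringEquivOfRingEquivHom (Alg Γ z) K).comp (actAlg Γ z)

lemma frob (hz : ∀ g, z * g = g * z) (K : Type) [Field K] [Algebra (Alg Γ z) K]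
    [IsFractionRing (Alg Γ z) K] (x : K) : tau Γ z K z x = x ^ 2 := by
  have : CharP K 2 := charP_of_injective_algebraMap (IsFractionRing.injective (Alg Γ z) K) 2
  have h : ((tau Γ z K z : K ≃+* K) : K →+* K) = frobenius K 2 := by
    apply IsLocalization.ringHom_ext (nonZeroDivisors (Alg Γ z))
    refine RingHom.ext fun x => ?_
    change tau Γ z K z (algebraMap (Alg Γ z) K x) = frobenius K 2 (algebraMap _ _ x)
    have h1 : tau Γ z K z (algebraMap (Alg Γ z) K x) =
        algebraMap (Alg Γ z) K (actAlg Γ z z x) :=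
      IsFractionRing.ringEquivOfRingEquiv_algebraMap _ _
    rw [h1, frob_alg Γ z hz, frobenius_def, map_pow]
  have := congrArg (fun f : K →+* K => f x) h
  simpa [frobenius_def] using this

/-- A nonzero element of the coinduced module. -/
lemma exists_ne (hz : ∀ n : ℤ, z ^ n = 1 → n = 0) : ∃ f : Lam Γ z, f ≠ 0 := by
  classical
  have hinj : ∀ m n : ℤ, z ^ m = z ^ n → m = n := by
    intro m n h
    have := hz (m - n) (by rw [zpow_sub, h, mul_inv_cancel])
    omega
  let f : Γ → ℚ := fun g => if h : ∃ n : ℤ, g = z ^ n then (2 : ℚ) ^ (h.choose) else 0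
  have hf : ∀ n : ℤ, f (z ^ n) = 2 ^ n := by
    intro n
    have h : ∃ m : ℤ, z ^ n = z ^ m := ⟨n, rfl⟩
    have h1 : f (z ^ n) = (2 : ℚ) ^ (h.choose) := dif_pos h
    rw [h1, hinj _ _ h.choose_spec.symm]
  have hf' : ∀ g, (¬ ∃ n : ℤ, g = z ^ n) → f g = 0 := fun g h => dif_neg h
  refine ⟨⟨f, ?_⟩, ?_⟩
  · intro g
    by_cases h : ∃ n : ℤ, g = z ^ n
    · obtain ⟨n, rfl⟩ := h
      rw [← zpow_one_add, hf, hf, zpow_one_add₀ (by norm_num)]
    · rw [hf' g h, hf' (z * g), mul_zero]
      rintro ⟨n, hn⟩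
      apply h
      refine ⟨n - 1, ?_⟩
      rw [← mul_right_inj z, hn, ← zpow_one_add]
      congr 1
      ring
  · intro h
    have h1 : f (z ^ (0 : ℤ)) = 0 := by
      have := congrArg (fun f : Lam Γ z => f.1 (z ^ (0 : ℤ))) h
      exact this
    rw [hf] at h1
    norm_num at h1

lemma infinite_K (hz : ∀ n : ℤ, z ^ n = 1 → n = 0) (K : Type) [Field K] [Algebra (Alg Γ z) K]
    [IsFractionRing (Alg Γ z) K] : Infinite K := by
  obtain ⟨f, hf⟩ := exists_ne Γ z hz
  have h1 : Infinite (Lam Γ z) :=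
    Infinite.of_injective (fun q : ℚ => q • f) (smul_left_injective ℚ hf)
  have h2 : Infinite (Alg Γ z) :=
    Infinite.of_injective (fun f : Lam Γ z =>
      (MonoidAlgebra.of (ZMod 2) (Multiplicative (Lam Γ z)) (Multiplicative.ofAdd f))) (by
        intro a b hab
        exact Multiplicative.ofAdd.injective (MonoidAlgebra.of_injective hab))
  exact Infinite.of_injective _ (IsFractionRing.injective (Alg Γ z) K)

/-- Existence of the field. -/
lemma exists_field (hz : ∀ g, z * g = g * z) (hz' : ∀ n : ℤ, z ^ n = 1 → n = 0) :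
    ∃ (K : Type) (_ : Field K) (_ : Infinite K) (τ : Γ →* (K ≃+* K)), ∀ x : K, τ z x = x ^ 2 := by
  let K : Type := FractionRing (Alg Γ z)
  let i1 : Field K := inferInstance
  let i2 : Algebra (Alg Γ z) K := inferInstance
  have i3 : IsFractionRing (Alg Γ z) K := inferInstance
  exact ⟨K, i1, infinite_K Γ z hz' K, tau Γ z K, frob Γ z hz K⟩

end field

/-- The index set. -/
abbrev J : Type := WithTop (WithBot ℚ)

/-- The statement for an abstract group with the required properties. -/
theorem main_gen (Γ : Type) [Group Γ] (z : Γ) (hz : ∀ g, z * g = g * z)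
    (hz' : ∀ n : ℤ, z ^ n = 1 → n = 0)
    (hsol : ∀ S : Finset Γ, Group.IsSolvable (Subgroup.closure (S : Set Γ)))
    (hrep : ∀ (F A : Type) [Field F] [Ring A] [Algebra F A] [FiniteDimensional F A]
      (ρ : Γ →* A) (g : Γ), ρ g = 1) :
    ∃ (X : Type) (G : Subgroup (Equiv.Perm X)), Infinite G ∧
      MulAction.IsMultiplyPretransitive G X 2 ∧
      (∀ x : X, ∀ S : Finset G,
        ((↑S : Set G) ⊆ (MulAction.stabilizer G x : Set G)) →
          Group.IsSolvable (Subgroup.closure (↑S : Set G))) ∧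
      ∀ (F A : Type) [Field F] [Ring A] [Algebra F A] [FiniteDimensional F A]
      (ρ : G →* A) (g : G), ρ g = 1 := by
  obtain ⟨K, hK, hK', τ, hτ⟩ := exists_field Γ z hz hz'
  refine ⟨K, G τ, infinite_G _, two_trans _, fun x S hS => sol τ hsol x S hS, ?_⟩
  intro F A _ _ _ _ ρ g
  exact rep_trivial τ hrep z hτ (F := F) ρ g

theorem main_exists :
    ∃ (X : Type) (G : Subgroup (Equiv.Perm X)), Infinite G ∧
      MulAction.IsMultiplyPretransitive G X 2 ∧
      (∀ x : X, ∀ S : Finset G,
        ((↑S : Set G) ⊆ (MulAction.stabilizer G x : Set G)) →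
          Group.IsSolvable (Subgroup.closure (↑S : Set G))) ∧
      ∀ (F A : Type) [Field F] [Ring A] [Algebra F A] [FiniteDimensional F A]
      (ρ : G →* A) (g : G), ρ g = 1 :=
  main_gen (McLain.M J) (McLain.zc J) McLain.zc_central (fun n hn => McLain.zc_infinite n hn)
    McLain.M_locally_solvable
    (fun F A _ _ _ _ ρ g => McLain.M_rep_trivial (F := F) ρ g)

theorem main : ¬ (∀ (G X : Type) [Group G] [MulAction G X], FaithfulSMul G X → Infinite G →
      MulAction.IsMultiplyPretransitive G X 2 →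
      (∀ x : X, ∀ S : Finset G,
        ((↑S : Set G) ⊆ (MulAction.stabilizer G x : Set G)) →
          Group.IsSolvable (Subgroup.closure (↑S : Set G))) →
      ∃ (K : Type) (_ : Field K) (V : Type) (_ : AddCommGroup V) (_ : Module K V),
        FiniteDimensional K V ∧ ∃ ρ : Representation K G V,
          Nontrivial V ∧
          (∀ W : Submodule K V, (∀ g : G, ∀ v ∈ W, ρ g v ∈ W) → W = ⊥ ∨ W = ⊤) ∧
          ∃ g : G, ρ g ≠ 1) := by
  intro h
  obtain ⟨X, G, h1, h2, h3, h4⟩ := main_exists
  obtain ⟨F, hF, V, hV1, hV2, hV3, ρ, -, -, g, hg⟩ := h G X inferInstance h1 h2 h3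
  exact hg (h4 F (Module.End F V) ρ g)

end Pool.Agent.helper49.TwoTrans
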