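import Mathlib
import Pool.Agent.helper49.TwoTrans

set_option autoImplicit false

namespace Pool.Agent.helper49.TwoTransU

open Pool.Agent.helper49

universe u v w

/-! Versions of the lemmas on representations with coefficients in arbitrary universes. -/

/-- Infinite families of almost commuting pairs in a finite-dimensional algebra. -/
lemma exists_commute {F : Type u} {A : Type v} {ι : Type w} [Field F] [Ring A] [Algebra F A]
    [FiniteDimensional F A]
    [Infinite ι] (x y : ι → A) (h : ∀ i j, i ≠ j → x i * y j = y j * x i) :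
    ∃ i, x i * y i = y i * x i := by
  by_contra hcon
  push Not at hcon
  have hli : LinearIndependent F y := by
    rw [linearIndependent_iff']
    intro s g hg i hi
    have h1 : ∑ j ∈ s, g j • (x i * y j - y j * x i) = 0 := by
      have h2 : x i * (∑ j ∈ s, g j • y j) - (∑ j ∈ s, g j • y j) * x i = 0 := by
        rw [hg]; simp
      rw [Finset.mul_sum, Finset.sum_mul, ← Finset.sum_sub_distrib] at h2
      rw [← h2]
      refine Finset.sum_congr rfl fun j _ => ?_
      rw [smul_sub, mul_smul_comm, smul_mul_assoc]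
    rw [Finset.sum_eq_single i] at h1
    · rcases smul_eq_zero.mp h1 with h3 | h3
      · exact h3
      · exact absurd (sub_eq_zero.mp h3) (hcon i)
    · intro j _ hj
      rw [h i j hj.symm, sub_self, smul_zero]
    · intro hn; exact absurd hi hn
  have := hli.finite
  exact not_finite ι

/-- No nontrivial finite-dimensional representation of the McLain group of a dense order. -/
theorem M_rep_trivial {I : Type} [LinearOrder I] [DenselyOrdered I] {F : Type u} {A : Type v}
    [Field F] [Ring A] [Algebra F A]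
    [FiniteDimensional F A] (ρ : McLain.M I →* A) (g : McLain.M I) : ρ g = 1 := by
  have key : ∀ (i k : I) (h : i < k) (a : ℤ), ρ (McLain.EM h a) = 1 := by
    intro i k h a
    have hinf : Infinite (Set.Ioo i k) := (Set.Ioo_infinite h).to_subtype
    obtain ⟨j, hj⟩ := exists_commute (F := F) (fun j : Set.Ioo i k => ρ (McLain.EM j.2.1 a))
      (fun j : Set.Ioo i k => ρ (McLain.EM j.2.2 1)) (by
        intro j j' hne
        rw [← map_mul, ← map_mul]
        congr 1
        apply Subtype.ext
        exact McLain.E_comm j.2.1 j'.2.2 a 1 (fun h' => hne (Subtype.ext h')) h.ne')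
    have h2 : McLain.EM j.2.1 a * McLain.EM j.2.2 1 =
        McLain.EM h a * (McLain.EM j.2.2 1 * McLain.EM j.2.1 a) := by
      apply Subtype.ext
      have := McLain.E_commutator j.2.1 j.2.2 a 1
      rw [mul_one] at this
      exact this
    have h3 := congrArg ρ h2
    rw [map_mul, map_mul ρ (McLain.EM h a), map_mul ρ (McLain.EM j.2.2 1), hj] at h3
    have h4 : IsUnit (ρ (McLain.EM j.2.2 1) * ρ (McLain.EM j.2.1 a)) := by
      rw [← map_mul]
      exact (Group.isUnit _).map ρ
    exact (h4.mul_right_cancel (by rw [one_mul]; exact h3)).symm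
  have h1 : ∀ (u : (McLain.R I)ˣ) (hu : u ∈ McLain.M I), ρ ⟨u, hu⟩ = 1 := by
    intro u hu
    unfold McLain.M at hu
    induction hu using Subgroup.closure_induction with
    | mem x hx =>
      obtain ⟨i, j, h, a, -, -, rfl⟩ := hx
      exact key i j h a
    | one => exact map_one ρ
    | mul x y hx hy ihx ihy =>
      have : (⟨x * y, mul_mem hx hy⟩ : McLain.M I) = ⟨x, hx⟩ * ⟨y, hy⟩ := rfl
      rw [this, map_mul, ihx, ihy, one_mul]
    | inv x hx ih =>
      have h5 : ρ (⟨x, hx⟩⁻¹ * ⟨x, hx⟩) = 1 := by rw [inv_mul_cancel, map_one]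
      rw [map_mul, ih, mul_one] at h5
      exact h5
  exact h1 g.1 g.2

section affine

open TwoTrans

variable {Γ K : Type} [Group Γ] [Field K] (τ : Γ →* (K ≃+* K))

/-- Every finite-dimensional representation is trivial. -/
lemma rep_trivial (hrep : ∀ (F : Type u) (A : Type v) [Field F] [Ring A] [Algebra F A]
      [FiniteDimensional F A] (ρ : Γ →* A) (g : Γ), ρ g = 1)
    [Infinite K] (z : Γ) (hz : ∀ x : K, τ z x = x ^ 2)
    {F : Type u} {A : Type v} [Field F] [Ring A] [Algebra F A] [FiniteDimensional F A]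
    (ρ : G τ →* A) (g : G τ) : ρ g = 1 := by
  -- step one
  have s1 : ∀ a : Γ, ρ ⟨toPerm τ a, toPerm_mem τ a⟩ = 1 := by
    intro a
    exact hrep F A (ρ.comp ((toPerm τ).codRestrict (G τ) (toPerm_mem τ))) a
  -- step two
  have s2 : ∀ c : Kˣ, ρ ⟨aff c 0, aff_mem τ c 0⟩ = 1 := by
    intro c
    have e1 : (⟨toPerm τ z, toPerm_mem τ z⟩ : G τ) * ⟨aff c 0, aff_mem τ c 0⟩ =
        ⟨aff c 0, aff_mem τ c 0⟩ * ⟨aff c 0, aff_mem τ c 0⟩ * ⟨toPerm τ z, toPerm_mem τ z⟩ := by
      apply Subtype.ext
      ext y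
      change toPerm τ z (aff c 0 y) = aff c 0 (aff c 0 (toPerm τ z y))
      simp only [toPerm_apply, aff_apply, hz]
      ring
    have e2 := congrArg ρ e1
    rw [map_mul, map_mul, map_mul, s1, one_mul, mul_one] at e2
    have e3 : IsUnit (ρ ⟨aff c 0, aff_mem τ c 0⟩) := (Group.isUnit _).map ρ
    exact (e3.mul_left_cancel (by rw [mul_one]; exact e2)).symm
  -- step three
  have s3 : ∀ d : K, ρ ⟨aff 1 d, aff_mem τ 1 d⟩ = 1 := by
    intro d
    classical
    obtain ⟨c, hc⟩ := Infinite.exists_notMem_finset ({0, 1} : Finset K)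
    simp only [Finset.mem_insert, Finset.mem_singleton, not_or] at hc
    obtain ⟨hc0, hc1⟩ := hc
    have hc2 : c - 1 ≠ 0 := sub_ne_zero.mpr hc1
    set u : Kˣ := Units.mk0 c hc0 with hu
    set d' : K := d / (c - 1) with hd'
    have e1 : (⟨aff u 0, aff_mem τ u 0⟩ : G τ) * ⟨aff 1 d', aff_mem τ 1 d'⟩ =
        ⟨aff 1 d, aff_mem τ 1 d⟩ * (⟨aff 1 d', aff_mem τ 1 d'⟩ * ⟨aff u 0, aff_mem τ u 0⟩) := by
      apply Subtype.ext
      ext y
      change aff u 0 (aff 1 d' y) = aff 1 d (aff 1 d' (aff u 0 y))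
      simp only [aff_apply, hu, Units.val_mk0, Units.val_one, hd']
      field_simp
      ring
    have e2 := congrArg ρ e1
    rw [map_mul, map_mul, map_mul, s2, one_mul, mul_one] at e2
    have e3 : IsUnit (ρ ⟨aff 1 d', aff_mem τ 1 d'⟩) := (Group.isUnit _).map ρ
    exact (e3.mul_right_cancel (by rw [one_mul]; exact e2)).symm
  -- step four
  obtain ⟨p, hp⟩ := g
  obtain ⟨a, c, d, h⟩ := (mem_G τ).mp hp
  have e1 : (⟨p, hp⟩ : G τ) = ⟨aff 1 d, aff_mem τ 1 d⟩ * (⟨aff c 0, aff_mem τ c 0⟩ *
      ⟨toPerm τ a, toPerm_mem τ a⟩) := by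
    apply Subtype.ext
    ext y
    change p y = aff 1 d (aff c 0 (toPerm τ a y))
    simp only [aff_apply, toPerm_apply]
    simp only at h
    rw [h]
    simp
  rw [e1, map_mul, map_mul, s1, s2, s3, one_mul, one_mul]

/-- A group whose commutators lie in a commutative subgroup is solvable. -/
lemma solvable_of_comm_mem {H : Type*} [Group H] (T : Subgroup H)
    (h1 : ∀ a b : H, a * b * a⁻¹ * b⁻¹ ∈ T) (h2 : ∀ a ∈ T, ∀ b ∈ T, a * b = b * a) :
    Group.IsSolvable H := by
  refine ⟨⟨2, ?_⟩⟩
  have h3 : derivedSeries H 1 ≤ T := by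
    rw [derivedSeries_succ, Subgroup.commutator_le]
    intro a _ b _
    rw [commutatorElement_def]
    exact h1 a b
  rw [eq_bot_iff, derivedSeries_succ, Subgroup.commutator_le]
  intro a ha b hb
  rw [Subgroup.mem_bot, commutatorElement_def, h2 a (h3 ha) b (h3 hb)]
  group

/-- Translations. -/
def Tr (K : Type) [Field K] : Subgroup (Equiv.Perm K) where
  carrier := {p | ∃ d : K, ∀ y, p y = y + d}
  one_mem' := ⟨0, fun y => by simp⟩
  mul_mem' := by
    rintro p q ⟨d, h⟩ ⟨d', h'⟩
    refine ⟨d' + d, fun y => ?_⟩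
    rw [Equiv.Perm.mul_apply, h, h', add_assoc]
  inv_mem' := by
    rintro p ⟨d, h⟩
    refine ⟨-d, fun y => ?_⟩
    rw [Equiv.Perm.inv_eq_iff_eq, h]
    ring

lemma affine_comm {p q : Equiv.Perm K} (hp : ∃ c d : K, ∀ y, p y = c * y + d)
    (hq : ∃ c d : K, ∀ y, q y = c * y + d) : p * q * p⁻¹ * q⁻¹ ∈ Tr K := by
  obtain ⟨c, d, h⟩ := hp
  obtain ⟨c', d', h'⟩ := hq
  refine ⟨c * d' + d - (c' * d + d'), fun y => ?_⟩
  obtain ⟨w, rfl⟩ := (q * p).surjective y
  have e1 : (p * q * p⁻¹ * q⁻¹) ((q * p) w) = p (q w) := by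
    simp [Equiv.Perm.mul_apply]
  rw [e1, Equiv.Perm.mul_apply, h, h', h', h]
  ring

/-- Local solvability of the whole group, as a group of pairs. -/
lemma sol_aux (hsol : ∀ S : Finset Γ, Group.IsSolvable (Subgroup.closure (S : Set Γ)))
    (S : Finset (Γ × Equiv.Perm K)) (hS : ∀ s ∈ S, s ∈ P τ) :
    Group.IsSolvable (Subgroup.closure (S : Set (Γ × Equiv.Perm K))) := by
  classical
  set H := Subgroup.closure (S : Set (Γ × Equiv.Perm K)) with hH
  have hP : H ≤ P τ := (Subgroup.closure_le _).mpr fun s hs => hS s hs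
  have hmap : H.map (MonoidHom.fst Γ (Equiv.Perm K)) =
      Subgroup.closure ((S.image Prod.fst : Finset Γ) : Set Γ) := by
    rw [hH, MonoidHom.map_closure]
    simp
  have h1 : Group.IsSolvable (H.map (MonoidHom.fst Γ (Equiv.Perm K))) := by
    rw [hmap]; exact hsol _
  let g : H →* H.map (MonoidHom.fst Γ (Equiv.Perm K)) :=
    (MonoidHom.fst Γ (Equiv.Perm K)).subgroupMap H
  -- the second coordinate on the kernel
  let π : g.ker →* Equiv.Perm K :=
    (MonoidHom.snd Γ (Equiv.Perm K)).comp (H.subtype.comp g.ker.subtype)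
  have hker : ∀ s : g.ker, s.1.1.1 = 1 := fun s => congrArg Subtype.val (MonoidHom.mem_ker.mp s.2)
  have hπ : Function.Injective π := by
    intro s t hst
    apply Subtype.ext
    apply Subtype.ext
    refine Prod.ext ?_ hst
    rw [hker s, hker t]
  have haff : ∀ s : g.ker, ∃ c d : K, ∀ y, π s y = c * y + d := by
    intro s
    obtain ⟨c, d, h⟩ := hP s.1.2
    refine ⟨c, d, fun y => ?_⟩
    have h' := h y
    rw [hker s, map_one] at h'
    exact h'
  have h2 : Group.IsSolvable g.ker := by
    refine solvable_of_comm_mem ((Tr K).comap π) ?_ ?_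
    · intro a b
      rw [Subgroup.mem_comap, map_mul, map_mul, map_mul, map_inv, map_inv]
      exact affine_comm (haff a) (haff b)
    · intro a ha b hb
      obtain ⟨d, h⟩ := ha
      obtain ⟨d', h'⟩ := hb
      apply hπ
      rw [map_mul, map_mul]
      ext y
      rw [Equiv.Perm.mul_apply, Equiv.Perm.mul_apply, h, h, h', h']
      ring
  exact Group.isSolvable_of_ker_le_range g.ker.subtype g (by simp)

/-- Local solvability of the whole group. -/
lemma sol (hsol : ∀ S : Finset Γ, Group.IsSolvable (Subgroup.closure (S : Set Γ)))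
    (H : Subgroup (G τ)) (hH : H.FG) : Group.IsSolvable H := by
  classical
  obtain ⟨S, rfl⟩ := hH
  choose a ha using fun p : G τ => (mem_G τ).mp p.2
  let T : Finset (Γ × Equiv.Perm K) := S.image (fun p => (a p, p.1))
  have hT : Group.IsSolvable (Subgroup.closure (T : Set (Γ × Equiv.Perm K))) := by
    apply sol_aux τ hsol
    intro s hs
    simp only [T, Finset.mem_image] at hs
    obtain ⟨p, hp, rfl⟩ := hs
    exact ha p
  have h1 : (Subgroup.closure (T : Set (Γ × Equiv.Perm K))).map
      (MonoidHom.snd Γ (Equiv.Perm K)) = (Subgroup.closure (S : Set (G τ))).map (G τ).subtype := by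
    rw [MonoidHom.map_closure, MonoidHom.map_closure]
    congr 1
    ext p
    simp only [T, Finset.coe_image, Set.mem_image]
    constructor
    · rintro ⟨_, ⟨q, hq, rfl⟩, rfl⟩
      exact ⟨q, hq, rfl⟩
    · rintro ⟨q, hq, rfl⟩
      exact ⟨_, ⟨q, hq, rfl⟩, rfl⟩
  have h2 : Group.IsSolvable ((Subgroup.closure (T : Set (Γ × Equiv.Perm K))).map
      (MonoidHom.snd Γ (Equiv.Perm K))) :=
    Group.isSolvable_of_surjective (MonoidHom.subgroupMap_surjective _ _)
  rw [h1] at h2
  exact Group.isSolvable_of_isSolvable_injective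
    (f := (G τ).subtype.subgroupMap (Subgroup.closure (S : Set (G τ))))
    (by
      intro a b hab
      have := congrArg Subtype.val hab
      simp only [MonoidHom.subgroupMap_apply_coe] at this
      exact Subtype.ext (Subtype.ext this))

end affine

/-- The example: an infinite two-transitive locally soluble group of semi-affine permutations of a
field, all of whose finite-dimensional representations are trivial. -/
theorem main :
    ∃ (K : Type) (_ : Field K) (G : Subgroup (Equiv.Perm K)),
      CharP K 2 ∧ Infinite K ∧ Infinite G ∧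
      (∀ c d : K, c ≠ 0 → ∃ g ∈ G, ∀ y : K, g y = c * y + d) ∧
      (∀ g ∈ G, ∃ (σ : K ≃+* K) (c d : K), c ≠ 0 ∧ ∀ y : K, g y = c * σ y + d) ∧
      (∀ a b a' b' : K, a ≠ b → a' ≠ b' → ∃ g ∈ G, g a = a' ∧ g b = b') ∧
      (∀ H : Subgroup G, H.FG → Group.IsSolvable H) ∧
      (∀ (x : K) (H : Subgroup (MulAction.stabilizer G x)), H.FG → Group.IsSolvable H) ∧
      ∀ (F : Type u) (V : Type v) [Field F] [AddCommGroup V] [Module F V]
        [FiniteDimensional F V] (ρ : Representation F G V) (g : G), ρ g = 1 := by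
  obtain ⟨K, hK, hK', τ, hτ⟩ := TwoTrans.exists_field (McLain.M TwoTrans.J)
    (McLain.zc TwoTrans.J) McLain.zc_central (fun n hn => McLain.zc_infinite n hn)
  have hsol : ∀ H : Subgroup (TwoTrans.G τ), H.FG → Group.IsSolvable H :=
    fun H hH => TwoTransU.sol τ McLain.M_locally_solvable H hH
  refine ⟨K, hK, TwoTrans.G τ, ?_, hK', TwoTrans.infinite_G τ, ?_, ?_, ?_, hsol, ?_, ?_⟩
  · -- the characteristic
    rw [CharP.charP_iff_prime_eq_zero Nat.prime_two]
    have h1 := hτ (1 + 1)
    rw [map_add, map_one] at h1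
    push_cast
    linear_combination -h1
  · -- affine maps
    intro c d hc
    exact ⟨TwoTrans.aff (Units.mk0 c hc) d, TwoTrans.aff_mem τ _ _, fun y => rfl⟩
  · -- semi-affine maps
    intro g hg
    obtain ⟨a, c, d, h⟩ := (TwoTrans.mem_G τ).mp hg
    exact ⟨τ a, c, d, c.ne_zero, h⟩
  · -- two-transitivity
    intro a b a' b' hab hab'
    have h := TwoTrans.two_trans τ
    rw [MulAction.is_two_pretransitive_iff] at h
    obtain ⟨g, h1, h2⟩ := h hab hab'
    exact ⟨g.1, g.2, h1, h2⟩
  · -- point stabilizers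
    intro x H hH
    have h1 : (H.map (MulAction.stabilizer (TwoTrans.G τ) x).subtype).FG := by
      obtain ⟨S, rfl⟩ := hH
      classical
      refine ⟨S.image (MulAction.stabilizer (TwoTrans.G τ) x).subtype, ?_⟩
      rw [Finset.coe_image, MonoidHom.map_closure]
    have h2 := hsol _ h1
    exact Group.isSolvable_of_isSolvable_injective
      (f := ((MulAction.stabilizer (TwoTrans.G τ) x).subtype.subgroupMap H))
      (by
        intro a b hab
        have := congrArg Subtype.val hab
        simp only [MonoidHom.subgroupMap_apply_coe] at this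
        exact Subtype.ext (Subtype.ext this))
  · -- representations
    intro F V _ _ _ _ ρ g
    exact TwoTransU.rep_trivial τ (fun F A _ _ _ _ ρ g => TwoTransU.M_rep_trivial (F := F) ρ g)
      (McLain.zc TwoTrans.J) hτ (F := F) ρ g

end Pool.Agent.helper49.TwoTransU
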