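import Mathlib

set_option autoImplicit false

/-! Sign diagrams of real functions: the analytic part of the Tarski-Seidenberg theorem. -/

namespace Pool.Agent.helper49.TS

open Set

/-- A piecewise linear bump. -/
lemma exists_bump {c d u v : ℝ} (hcu : c < u) (hud : u < d) (hcv : c < v) (hvd : v < d) :
    ∃ τ : ℝ → ℝ, StrictMono τ ∧ Function.Surjective τ ∧ τ u = v ∧
      ∀ s, (s ≤ c ∨ d ≤ s) → τ s = s := by
  set k := (v - c) / (u - c) with hk
  set l := (d - v) / (d - u) with hl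
  have hk0 : 0 < k := div_pos (by linarith) (by linarith)
  have hl0 : 0 < l := div_pos (by linarith) (by linarith)
  have hk1 : (u - c) * k = v - c := by rw [hk]; field_simp [show u - c ≠ 0 by linarith]
  have hl1 : (d - u) * l = d - v := by rw [hl]; field_simp [show d - u ≠ 0 by linarith]
  let τ : ℝ → ℝ := fun s => if s ≤ c then s else if s ≤ u then c + (s - c) * k else
    if s ≤ d then v + (s - u) * l else s
  have t1 : ∀ s, s ≤ c → τ s = s := fun s h => if_pos h
  have t2 : ∀ s, c < s → s ≤ u → τ s = c + (s - c) * k := fun s h h' => by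
    simp only [τ, if_neg (not_le.mpr h), if_pos h']
  have t3 : ∀ s, u < s → s ≤ d → τ s = v + (s - u) * l := fun s h h' => by
    simp only [τ, if_neg (not_le.mpr h), if_neg (not_le.mpr (hcu.trans h)), if_pos h']
  have t4 : ∀ s, d < s → τ s = s := fun s h => by
    simp only [τ, if_neg (not_le.mpr h), if_neg (not_le.mpr (hud.trans h)),
      if_neg (not_le.mpr (hcu.trans (hud.trans h)))]
  refine ⟨τ, ?_, ?_, ?_, ?_⟩
  · -- monotone: compare with breakpoints
    have b1 : ∀ s, c < s → c < τ s := by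
      intro s h
      rcases le_or_gt s u with h1 | h1
      · rw [t2 s h h1]; nlinarith
      · rcases le_or_gt s d with h2 | h2
        · rw [t3 s h1 h2]; nlinarith
        · rw [t4 s h2]; exact h
    have b2 : ∀ s, s ≤ u → τ s ≤ v := by
      intro s h
      rcases le_or_gt s c with h1 | h1
      · rw [t1 s h1]; linarith
      · rw [t2 s h1 h]; nlinarith
    have b3 : ∀ s, u < s → v < τ s := by
      intro s h
      rcases le_or_gt s d with h2 | h2
      · rw [t3 s h h2]; nlinarith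
      · rw [t4 s h2]; linarith
    have b4 : ∀ s, s ≤ d → τ s ≤ d := by
      intro s h
      rcases le_or_gt s u with h1 | h1
      · have := b2 s h1; linarith
      · rw [t3 s h1 h]; nlinarith
    intro s s' hss
    rcases le_or_gt s' c with h1 | h1
    · rw [t1 s' h1, t1 s (by linarith)]; exact hss
    · rcases le_or_gt s c with h2 | h2
      · rw [t1 s h2]; exact lt_of_le_of_lt h2 (b1 s' h1)
      · rcases le_or_gt s' u with h3 | h3
        · rw [t2 s' h1 h3, t2 s h2 (by linarith)]; nlinarith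
        · rcases le_or_gt s u with h4 | h4
          · exact lt_of_le_of_lt (b2 s h4) (b3 s' h3)
          · rcases le_or_gt s' d with h5 | h5
            · rw [t3 s' h3 h5, t3 s h4 (by linarith)]; nlinarith
            · rcases le_or_gt s d with h6 | h6
              · rw [t4 s' h5]; exact lt_of_le_of_lt (b4 s h6) h5
              · rw [t4 s' h5, t4 s h6]; exact hss
  · intro y
    rcases le_or_gt y c with h1 | h1
    · exact ⟨y, t1 y h1⟩
    · rcases le_or_gt y v with h2 | h2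
      · refine ⟨c + (y - c) / k, ?_⟩
        have h3 : 0 < (y - c) / k := div_pos (by linarith) hk0
        have h4 : (y - c) / k ≤ u - c := by
          rw [div_le_iff₀ hk0, hk1]; linarith
        rw [t2 _ (by linarith) (by linarith)]
        field_simp
        ring
      · rcases le_or_gt y d with h5 | h5
        · refine ⟨u + (y - v) / l, ?_⟩
          have h3 : 0 < (y - v) / l := div_pos (by linarith) hl0
          have h4 : (y - v) / l ≤ d - u := by
            rw [div_le_iff₀ hl0, hl1]; linarith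
          rw [t3 _ (by linarith) (by linarith)]
          field_simp
          ring
        · exact ⟨y, t4 y h5⟩
  · rw [t2 u hcu le_rfl]; linarith
  · rintro s (h | h)
    · exact t1 s h
    · rcases h.lt_or_eq with h1 | h1
      · exact t4 s h1
      · rw [← h1, t3 d hud le_rfl]; linarith

/-- Gaps of finite sets. -/
lemma exists_gap {Z : Set ℝ} (hZ : Z.Finite) {t z₁ z₂ : ℝ} (h1 : z₁ ∈ Z) (h1' : z₁ < t)
    (h2 : z₂ ∈ Z) (h2' : t < z₂) (ht : t ∉ Z) :
    ∃ a ∈ Z, ∃ b ∈ Z, a < t ∧ t < b ∧ ∀ z ∈ Z, z ≤ a ∨ b ≤ z := by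
  obtain ⟨a, ⟨ha, ha'⟩, hamax⟩ := (hZ.subset (fun z (hz : z ∈ {z | z ∈ Z ∧ z < t}) => hz.1)).exists_maximal
    ⟨z₁, h1, h1'⟩
  obtain ⟨b, ⟨hb, hb'⟩, hbmin⟩ := (hZ.subset (fun z (hz : z ∈ {z | z ∈ Z ∧ t < z}) => hz.1)).exists_minimal
    ⟨z₂, h2, h2'⟩
  refine ⟨a, ha, b, hb, ha', hb', ?_⟩
  intro z hz
  rcases lt_trichotomy z t with h | h | h
  · left
    by_contra hcon
    push Not at hcon
    exact absurd (hamax ⟨hz, h⟩ hcon.le) (not_le.mpr hcon)
  · exact absurd (h ▸ hz) ht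
  · right
    by_contra hcon
    push Not at hcon
    exact absurd (hbmin ⟨hz, h⟩ hcon.le) (not_le.mpr hcon)

/-- A continuous function without zeros on an open interval has constant sign. -/
lemma const_sign {h : ℝ → ℝ} (hc : Continuous h) {a b : ℝ} (hne : ∀ x ∈ Ioo a b, h x ≠ 0) :
    (∀ x ∈ Ioo a b, 0 < h x) ∨ (∀ x ∈ Ioo a b, h x < 0) := by
  by_contra hcon
  push Not at hcon
  obtain ⟨⟨x, hx, hx'⟩, ⟨y, hy, hy'⟩⟩ := hcon
  have hpre : IsPreconnected (Ioo a b) := isPreconnected_Ioo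
  obtain ⟨z, hz, hz'⟩ := hpre.intermediate_value hx hy hc.continuousOn ⟨hx', hy'⟩
  exact hne z hz hz'

/-- Local data on an interval. -/
structure Loc (f g θ : ℝ → ℝ) (a b : ℝ) : Prop where
  hab : a < b
  hf : Continuous f
  hg : Continuous g
  hθ : StrictMono θ
  mf : StrictMonoOn f (Icc a b)
  mg : StrictMonoOn g (Icc (θ a) (θ b))
  sa : SignType.sign (f a) = SignType.sign (g (θ a))
  sb : SignType.sign (f b) = SignType.sign (g (θ b))

lemma Loc.sign_eq {f g θ : ℝ → ℝ} {a b : ℝ} (L : Loc f g θ a b)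
    (hz : ∀ ρ ∈ Ioo a b, f ρ = 0 → g (θ ρ) = 0) {t : ℝ} (ht : t ∈ Ioo a b) :
    SignType.sign (f t) = SignType.sign (g (θ t)) := by
  have ha : a ∈ Icc a b := ⟨le_rfl, L.hab.le⟩
  have hb : b ∈ Icc a b := ⟨L.hab.le, le_rfl⟩
  have htI : t ∈ Icc a b := ⟨ht.1.le, ht.2.le⟩
  have ha' : θ a ∈ Icc (θ a) (θ b) := ⟨le_rfl, (L.hθ L.hab).le⟩
  have hb' : θ b ∈ Icc (θ a) (θ b) := ⟨(L.hθ L.hab).le, le_rfl⟩
  have ht' : θ t ∈ Icc (θ a) (θ b) := ⟨(L.hθ ht.1).le, (L.hθ ht.2).le⟩
  rcases lt_trichotomy (f t) 0 with h | h | h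
  · rw [sign_neg h]
    symm
    rw [sign_eq_neg_one_iff]
    rcases le_or_gt (f b) 0 with h1 | h1
    · have h2 : g (θ b) ≤ 0 := by
        have := L.sb
        rcases h1.lt_or_eq with h3 | h3
        · rw [sign_neg h3] at this
          exact (sign_eq_neg_one_iff.mp this.symm).le
        · rw [h3, sign_zero] at this
          exact (sign_eq_zero_iff.mp this.symm).le
      exact lt_of_lt_of_le (L.mg ht' hb' (L.hθ ht.2)) h2
    · have hpre : IsPreconnected (Icc t b) := isPreconnected_Icc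
      obtain ⟨ρ, hρ, hρ'⟩ := hpre.intermediate_value ⟨le_rfl, ht.2.le⟩ ⟨ht.2.le, le_rfl⟩
        L.hf.continuousOn ⟨h.le, h1.le⟩
      have h4 : t < ρ := lt_of_le_of_ne hρ.1 (by rintro rfl; rw [hρ'] at h; exact lt_irrefl _ h)
      have h5 : ρ < b := lt_of_le_of_ne hρ.2 (by rintro rfl; rw [hρ'] at h1; exact lt_irrefl _ h1)
      have h6 := hz ρ ⟨ht.1.trans h4, h5⟩ hρ'
      have := L.mg ht' (⟨(L.hθ (ht.1.trans h4)).le, (L.hθ h5).le⟩ : θ ρ ∈ Icc (θ a) (θ b)) (L.hθ h4)
      rwa [h6] at this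
  · rw [h, hz t ht h]
  · rw [sign_pos h]
    symm
    rw [sign_eq_one_iff]
    rcases le_or_gt 0 (f a) with h1 | h1
    · have h2 : 0 ≤ g (θ a) := by
        have := L.sa
        rcases h1.lt_or_eq with h3 | h3
        · rw [sign_pos h3] at this
          exact (sign_eq_one_iff.mp this.symm).le
        · rw [← h3, sign_zero] at this
          exact (sign_eq_zero_iff.mp this.symm).ge
      exact lt_of_le_of_lt h2 (L.mg ha' ht' (L.hθ ht.1))
    · have hpre : IsPreconnected (Icc a t) := isPreconnected_Icc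
      obtain ⟨ρ, hρ, hρ'⟩ := hpre.intermediate_value ⟨le_rfl, ht.1.le⟩ ⟨ht.1.le, le_rfl⟩
        L.hf.continuousOn ⟨h1.le, h.le⟩
      have h4 : ρ < t := lt_of_le_of_ne hρ.2 (by rintro rfl; rw [hρ'] at h; exact lt_irrefl _ h)
      have h5 : a < ρ := lt_of_le_of_ne hρ.1 (by rintro rfl; rw [hρ'] at h1; exact lt_irrefl _ h1)
      have h6 := hz ρ ⟨h5, h4.trans ht.2⟩ hρ'
      have := L.mg (⟨(L.hθ h5).le, (L.hθ (h4.trans ht.2)).le⟩ : θ ρ ∈ Icc (θ a) (θ b)) ht' (L.hθ h4)
      rwa [h6] at this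

lemma Loc.exists_zero {f g θ : ℝ → ℝ} {a b : ℝ} (L : Loc f g θ a b) {ρ : ℝ} (hρ : ρ ∈ Ioo a b)
    (h0 : f ρ = 0) : ∃ ρ' ∈ Ioo (θ a) (θ b), g ρ' = 0 := by
  have ha : f a < 0 := by
    rw [← h0]; exact L.mf ⟨le_rfl, L.hab.le⟩ ⟨hρ.1.le, hρ.2.le⟩ hρ.1
  have hb : 0 < f b := by
    rw [← h0]; exact L.mf ⟨hρ.1.le, hρ.2.le⟩ ⟨L.hab.le, le_rfl⟩ hρ.2
  have ha' : g (θ a) < 0 := by
    have := L.sa
    rw [sign_neg ha] at this
    exact sign_eq_neg_one_iff.mp this.symm
  have hb' : 0 < g (θ b) := by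
    have := L.sb
    rw [sign_pos hb] at this
    exact sign_eq_one_iff.mp this.symm
  have hpre : IsPreconnected (Icc (θ a) (θ b)) := isPreconnected_Icc
  obtain ⟨s, hs, hs'⟩ := hpre.intermediate_value ⟨le_rfl, (L.hθ L.hab).le⟩
    ⟨(L.hθ L.hab).le, le_rfl⟩ L.hg.continuousOn ⟨ha'.le, hb'.le⟩
  refine ⟨s, ⟨lt_of_le_of_ne hs.1 ?_, lt_of_le_of_ne hs.2 ?_⟩, hs'⟩
  · rintro rfl; rw [hs'] at ha'; exact lt_irrefl _ ha'
  · rintro rfl; rw [hs'] at hb'; exact lt_irrefl _ hb'

end Pool.Agent.helper49.TS
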