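import Mathlib
import Pool.Agent.helper49.TS1

set_option autoImplicit false

namespace Pool.Agent.helper49.TS

open Set Polynomial

/-- Data for the transfer step. -/
structure Dat (f g : ℝ[X]) (Z : Set ℝ) (θ : ℝ → ℝ) : Prop where
  fin : Z.Finite
  mono : StrictMono θ
  surj : Function.Surjective θ
  dz : ∀ t, f.derivative.eval t = 0 → t ∈ Z
  dz' : ∀ t, g.derivative.eval (θ t) = 0 → t ∈ Z
  ds : ∀ a ∈ Z, ∀ b ∈ Z, (∀ z ∈ Z, z ≤ a ∨ b ≤ z) → ∀ x ∈ Ioo a b, ∀ y ∈ Ioo (θ a) (θ b),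
    SignType.sign (f.derivative.eval x) = SignType.sign (g.derivative.eval y)
  val : ∀ t ∈ Z, SignType.sign (f.eval t) = SignType.sign (g.eval (θ t))

lemma Dat.congr {f g : ℝ[X]} {Z : Set ℝ} {θ θ' : ℝ → ℝ} (D : Dat f g Z θ) (h1 : StrictMono θ')
    (h2 : Function.Surjective θ') (h3 : ∀ z ∈ Z, θ' z = θ z) : Dat f g Z θ' where
  fin := D.fin
  mono := h1
  surj := h2
  dz := D.dz
  dz' := by
    intro t ht
    obtain ⟨s, hs⟩ := D.surj (θ' t)
    have h4 : s ∈ Z := D.dz' s (by rw [hs]; exact ht)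
    have h5 : θ' s = θ' t := by rw [h3 s h4, hs]
    rw [← h1.injective h5]
    exact h4
  ds := by
    intro a ha b hb hgap x hx y hy
    rw [h3 a ha, h3 b hb] at hy
    exact D.ds a ha b hb hgap x hx y hy
  val := by
    intro t ht
    rw [h3 t ht]
    exact D.val t ht

lemma Dat.neg {f g : ℝ[X]} {Z : Set ℝ} {θ : ℝ → ℝ} (D : Dat f g Z θ) : Dat (-f) (-g) Z θ where
  fin := D.fin
  mono := D.mono
  surj := D.surj
  dz := by intro t ht; exact D.dz t (by simpa using ht)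
  dz' := by intro t ht; exact D.dz' t (by simpa using ht)
  ds := by
    intro a ha b hb hgap x hx y hy
    have := D.ds a ha b hb hgap x hx y hy
    simp only [derivative_neg, eval_neg, Left.sign_neg, this]
  val := by
    intro t ht
    have := D.val t ht
    simp only [eval_neg, Left.sign_neg, this]

lemma Dat.loc_pos {f g : ℝ[X]} {Z : Set ℝ} {θ : ℝ → ℝ} (D : Dat f g Z θ) {a b : ℝ} (hab : a < b)
    (ha : a ∈ Z) (hb : b ∈ Z) (hgap : ∀ z ∈ Z, z ≤ a ∨ b ≤ z)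
    (hpos : ∀ x ∈ Ioo a b, 0 < f.derivative.eval x) :
    Loc (fun t => f.eval t) (fun t => g.eval t) θ a b where
  hab := hab
  hf := f.continuous
  hg := g.continuous
  hθ := D.mono
  mf := by
    apply strictMonoOn_of_deriv_pos (convex_Icc a b) f.continuous.continuousOn
    intro x hx
    rw [interior_Icc] at hx
    rw [Polynomial.deriv]
    exact hpos x hx
  mg := by
    apply strictMonoOn_of_deriv_pos (convex_Icc _ _) g.continuous.continuousOn
    intro y hy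
    rw [interior_Icc] at hy
    rw [Polynomial.deriv]
    obtain ⟨m, hm⟩ := exists_between hab
    have := D.ds a ha b hb hgap m hm y hy
    rw [sign_pos (hpos m hm)] at this
    exact sign_eq_one_iff.mp this.symm
  sa := D.val a ha
  sb := D.val b hb

lemma Dat.loc {f g : ℝ[X]} {Z : Set ℝ} {θ : ℝ → ℝ} (D : Dat f g Z θ) {a b : ℝ} (hab : a < b)
    (ha : a ∈ Z) (hb : b ∈ Z) (hgap : ∀ z ∈ Z, z ≤ a ∨ b ≤ z) :
    Loc (fun t => f.eval t) (fun t => g.eval t) θ a b ∨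
    Loc (fun t => (-f).eval t) (fun t => (-g).eval t) θ a b := by
  have hne : ∀ x ∈ Ioo a b, f.derivative.eval x ≠ 0 := by
    intro x hx h0
    rcases hgap x (D.dz x h0) with h | h
    · exact absurd hx.1 (not_lt.mpr h)
    · exact absurd hx.2 (not_lt.mpr h)
  rcases const_sign f.derivative.continuous hne with h | h
  · exact Or.inl (D.loc_pos hab ha hb hgap h)
  · right
    apply D.neg.loc_pos hab ha hb hgap
    intro x hx
    have := h x hx
    simp only [derivative_neg, eval_neg]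
    linarith

/-- One improvement. -/
lemma Dat.improve {f g : ℝ[X]} {Z : Set ℝ} {θ : ℝ → ℝ} (D : Dat f g Z θ) {a b ρ : ℝ}
    (ha : a ∈ Z) (hb : b ∈ Z) (hgap : ∀ z ∈ Z, z ≤ a ∨ b ≤ z) (hρ : ρ ∈ Ioo a b)
    (h0 : f.eval ρ = 0) :
    ∃ θ' : ℝ → ℝ, Dat f g Z θ' ∧ (∀ z ∈ Z, θ' z = θ z) ∧
      {s | f.eval s = 0 ∧ g.eval (θ' s) ≠ 0} ⊆ {s | f.eval s = 0 ∧ g.eval (θ s) ≠ 0} \ {ρ} := by
  have hab : a < b := hρ.1.trans hρ.2
  have hinj : ∀ s ∈ Ioo a b, f.eval s = 0 → s = ρ := by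
    intro s hs hs0
    rcases D.loc hab ha hb hgap with L | L
    · exact L.mf.injOn ⟨hs.1.le, hs.2.le⟩ ⟨hρ.1.le, hρ.2.le⟩ (by simp only [hs0, h0])
    · exact L.mf.injOn ⟨hs.1.le, hs.2.le⟩ ⟨hρ.1.le, hρ.2.le⟩ (by simp only [eval_neg, hs0, h0])
  obtain ⟨ρ', hρ', h0'⟩ : ∃ ρ' ∈ Ioo (θ a) (θ b), g.eval ρ' = 0 := by
    rcases D.loc hab ha hb hgap with L | L
    · exact L.exists_zero hρ h0
    · obtain ⟨ρ', h1, h2⟩ := L.exists_zero hρ (by simp [h0])
      exact ⟨ρ', h1, by simpa using h2⟩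
  obtain ⟨τ, hτ1, hτ2, hτ3, hτ4⟩ := exists_bump (D.mono hρ.1) (D.mono hρ.2) hρ'.1 hρ'.2
  have hZ : ∀ z ∈ Z, (τ ∘ θ) z = θ z := by
    intro z hz
    apply hτ4
    rcases hgap z hz with h | h
    · exact Or.inl (D.mono.monotone h)
    · exact Or.inr (D.mono.monotone h)
  refine ⟨τ ∘ θ, D.congr (hτ1.comp D.mono) (hτ2.comp D.surj) hZ, hZ, ?_⟩
  rintro s ⟨hs, hs'⟩
  by_cases hsI : s ∈ Ioo a b
  · exfalso
    apply hs'
    rw [hinj s hsI hs, Function.comp_apply, hτ3, h0']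
  · have h1 : (τ ∘ θ) s = θ s := by
      apply hτ4
      rcases le_or_gt s a with h | h
      · exact Or.inl (D.mono.monotone h)
      · right
        apply D.mono.monotone
        by_contra hcon
        push Not at hcon
        exact hsI ⟨h, hcon⟩
    rw [h1] at hs'
    refine ⟨⟨hs, hs'⟩, ?_⟩
    rintro rfl
    exact hsI hρ

/-- All zeros can be matched. -/
lemma Dat.exists_matching {f g : ℝ[X]} {Z : Set ℝ} (n : ℕ) : ∀ {θ : ℝ → ℝ} (_ : Dat f g Z θ)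
    {z₁ z₂ : ℝ} (_ : z₁ ∈ Z) (_ : z₂ ∈ Z) (_ : ∀ t, f.eval t = 0 → z₁ < t ∧ t < z₂)
    (_ : {s | f.eval s = 0 ∧ g.eval (θ s) ≠ 0}.ncard ≤ n)
    (_ : {s | f.eval s = 0 ∧ g.eval (θ s) ≠ 0}.Finite),
    ∃ θ' : ℝ → ℝ, Dat f g Z θ' ∧ (∀ z ∈ Z, θ' z = θ z) ∧ ∀ s, f.eval s = 0 → g.eval (θ' s) = 0 := by
  induction n with
  | zero =>
    intro θ D z₁ z₂ h1 h2 h3 hn hfin
    refine ⟨θ, D, fun _ _ => rfl, ?_⟩
    intro s hs
    by_contra hne
    have h4 : {s | f.eval s = 0 ∧ g.eval (θ s) ≠ 0} = ∅ := by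
      rw [← Set.ncard_eq_zero hfin]; omega
    have : s ∈ {s | f.eval s = 0 ∧ g.eval (θ s) ≠ 0} := ⟨hs, hne⟩
    rw [h4] at this
    exact this
  | succ n ih =>
    intro θ D z₁ z₂ h1 h2 h3 hn hfin
    by_cases hex : ∃ ρ, f.eval ρ = 0 ∧ g.eval (θ ρ) ≠ 0
    · obtain ⟨ρ, hρ, hρ'⟩ := hex
      have hρZ : ρ ∉ Z := by
        intro h
        have := D.val ρ h
        rw [hρ, sign_zero] at this
        exact hρ' (sign_eq_zero_iff.mp this.symm)
      obtain ⟨a, ha, b, hb, haρ, hρb, hgap⟩ := exists_gap D.fin h1 (h3 ρ hρ).1 h2 (h3 ρ hρ).2 hρZ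
      obtain ⟨θ₁, D₁, hθ₁, hsub⟩ := D.improve ha hb hgap ⟨haρ, hρb⟩ hρ
      have hfin₁ : {s | f.eval s = 0 ∧ g.eval (θ₁ s) ≠ 0}.Finite :=
        (hfin.subset Set.sdiff_subset).subset hsub
      have hcard : {s | f.eval s = 0 ∧ g.eval (θ₁ s) ≠ 0}.ncard ≤ n := by
        have h5 := Set.ncard_le_ncard hsub (hfin.subset Set.sdiff_subset)
        rw [Set.ncard_sdiff_singleton_of_mem (show ρ ∈ {s | f.eval s = 0 ∧ g.eval (θ s) ≠ 0} from
          ⟨hρ, hρ'⟩)] at h5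
        omega
      obtain ⟨θ₂, D₂, hθ₂, h6⟩ := ih D₁ h1 h2 h3 hcard hfin₁
      exact ⟨θ₂, D₂, fun z hz => (hθ₂ z hz).trans (hθ₁ z hz), h6⟩
    · push Not at hex
      exact ⟨θ, D, fun _ _ => rfl, hex⟩

/-- The transfer step. -/
theorem transfer {f g : ℝ[X]} {Z : Set ℝ} {θ : ℝ → ℝ} (D : Dat f g Z θ) (hf0 : f ≠ 0)
    {z₁ z₂ : ℝ} (h1 : z₁ ∈ Z) (h2 : z₂ ∈ Z)
    (hlo : ∀ t ≤ z₁, SignType.sign (f.eval t) = SignType.sign (f.eval z₁))
    (hlo0 : f.eval z₁ ≠ 0)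
    (hlo' : ∀ s ≤ θ z₁, SignType.sign (g.eval s) = SignType.sign (g.eval (θ z₁)))
    (hhi : ∀ t, z₂ ≤ t → SignType.sign (f.eval t) = SignType.sign (f.eval z₂))
    (hhi0 : f.eval z₂ ≠ 0)
    (hhi' : ∀ s, θ z₂ ≤ s → SignType.sign (g.eval s) = SignType.sign (g.eval (θ z₂))) :
    ∃ θ' : ℝ → ℝ, StrictMono θ' ∧ Function.Surjective θ' ∧ (∀ z ∈ Z, θ' z = θ z) ∧
      ∀ t, SignType.sign (f.eval t) = SignType.sign (g.eval (θ' t)) := by
  have hroots : ∀ t, f.eval t = 0 → z₁ < t ∧ t < z₂ := by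
    intro t ht
    constructor
    · by_contra hcon
      push Not at hcon
      have := hlo t hcon
      rw [ht, sign_zero] at this
      exact hlo0 (sign_eq_zero_iff.mp this.symm)
    · by_contra hcon
      push Not at hcon
      have := hhi t hcon
      rw [ht, sign_zero] at this
      exact hhi0 (sign_eq_zero_iff.mp this.symm)
  have hfin : {s | f.eval s = 0 ∧ g.eval (θ s) ≠ 0}.Finite := by
    apply (f.rootSet_finite ℝ).subset
    rintro s ⟨hs, -⟩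
    rw [Polynomial.mem_rootSet]
    exact ⟨hf0, by simpa using hs⟩
  obtain ⟨θ', D', hθ', hmatch⟩ := Dat.exists_matching _ D h1 h2 hroots le_rfl hfin
  refine ⟨θ', D'.mono, D'.surj, hθ', ?_⟩
  intro t
  rcases le_or_gt t z₁ with h | h
  · rw [hlo t h, D'.val z₁ h1, hθ' z₁ h1]
    symm
    apply hlo'
    rw [← hθ' z₁ h1]
    exact D'.mono.monotone h
  · rcases le_or_gt z₂ t with h' | h'
    · rw [hhi t h', D'.val z₂ h2, hθ' z₂ h2]
      symm
      apply hhi'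
      rw [← hθ' z₂ h2]
      exact D'.mono.monotone h'
    · by_cases htZ : t ∈ Z
      · exact D'.val t htZ
      · obtain ⟨a, ha, b, hb, hat, htb, hgap⟩ := exists_gap D'.fin h1 h h2 h' htZ
        rcases D'.loc (hat.trans htb) ha hb hgap with L | L
        · exact L.sign_eq (fun ρ _ hρ => hmatch ρ hρ) ⟨hat, htb⟩
        · have := L.sign_eq (fun ρ _ hρ => by
            have h3 : f.eval ρ = 0 := by simpa using hρ
            simp [hmatch ρ h3]) ⟨hat, htb⟩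
          simp only [eval_neg, Left.sign_neg] at this
          exact neg_injective this

end Pool.Agent.helper49.TS
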