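import Mathlib
import Pool.Agent.helper49.TS2

set_option autoImplicit false

namespace Pool.Agent.helper49.TS

open Set Polynomial

lemma sign_atTop (f : ℝ[X]) (hf : f ≠ 0) :
    ∃ T : ℝ, ∀ t ≥ T, SignType.sign (f.eval t) = SignType.sign f.leadingCoeff := by
  have key : ∀ f : ℝ[X], 0 < f.leadingCoeff → ∃ T : ℝ, ∀ t ≥ T, 0 < f.eval t := by
    intro f hlc
    rcases Nat.eq_zero_or_pos f.natDegree with h | h
    · refine ⟨0, fun t _ => ?_⟩
      rw [Polynomial.eq_C_of_natDegree_eq_zero h, eval_C]
      rw [Polynomial.leadingCoeff, h] at hlc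
      exact hlc
    · have := Polynomial.tendsto_atTop_of_leadingCoeff_nonneg f
        (Polynomial.natDegree_pos_iff_degree_pos.mp h) hlc.le
      obtain ⟨T, hT⟩ := Filter.eventually_atTop.mp (this.eventually_gt_atTop 0)
      exact ⟨T, hT⟩
  rcases lt_trichotomy f.leadingCoeff 0 with h | h | h
  · obtain ⟨T, hT⟩ := key (-f) (by rw [leadingCoeff_neg]; linarith)
    refine ⟨T, fun t ht => ?_⟩
    have := hT t ht
    rw [eval_neg] at this
    rw [sign_neg h, sign_neg (by linarith)]
  · exact absurd (leadingCoeff_eq_zero.mp h) hf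
  · obtain ⟨T, hT⟩ := key f h
    exact ⟨T, fun t ht => by rw [sign_pos h, sign_pos (hT t ht)]⟩

lemma sign_atBot (f : ℝ[X]) (hf : f ≠ 0) :
    ∃ T : ℝ, ∀ t ≤ T, SignType.sign (f.eval t) =
      SignType.sign ((-1) ^ f.natDegree * f.leadingCoeff) := by
  have h1 : f.comp (-X) ≠ 0 := by
    intro h
    apply hf
    have := congrArg (fun q : ℝ[X] => q.comp (-X)) h
    simpa [comp_assoc] using this
  obtain ⟨T, hT⟩ := sign_atTop (f.comp (-X)) h1
  refine ⟨-T, fun t ht => ?_⟩
  have h2 := hT (-t) (by linarith)
  rw [eval_comp] at h2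
  simp only [eval_neg, eval_X, neg_neg] at h2
  rw [h2, leadingCoeff_comp (by simp)]
  simp [mul_comm]

lemma exists_zero_between {h : ℝ → ℝ} (hc : Continuous h) {u v : ℝ}
    (hs : SignType.sign (h u) ≠ SignType.sign (h v)) : ∃ w ∈ uIcc u v, h w = 0 := by
  have hpre : IsPreconnected (uIcc u v) := isPreconnected_uIcc
  rcases lt_trichotomy (h u) 0 with h1 | h1 | h1
  · rcases lt_trichotomy (h v) 0 with h2 | h2 | h2
    · exact absurd (by rw [sign_neg h1, sign_neg h2]) hs
    · exact ⟨v, right_mem_uIcc, h2⟩
    · obtain ⟨w, hw, hw'⟩ := hpre.intermediate_value left_mem_uIcc right_mem_uIcc hc.continuousOn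
        ⟨h1.le, h2.le⟩
      exact ⟨w, hw, hw'⟩
  · exact ⟨u, left_mem_uIcc, h1⟩
  · rcases lt_trichotomy (h v) 0 with h2 | h2 | h2
    · obtain ⟨w, hw, hw'⟩ := hpre.intermediate_value right_mem_uIcc left_mem_uIcc hc.continuousOn
        ⟨h2.le, h1.le⟩
      exact ⟨w, hw, hw'⟩
    · exact ⟨v, right_mem_uIcc, h2⟩
    · exact absurd (by rw [sign_pos h1, sign_pos h2]) hs

section alg

variable {A : Type*} [CommRing A]

/-- Pseudo-division. -/
lemma exists_pseudo (g : A[X]) (j : ℕ) (hj : 1 ≤ j) (hg : g.natDegree ≤ j) (n : ℕ) :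
    ∀ p : A[X], p.natDegree ≤ n → ∃ (e : ℕ) (s r : A[X]),
      C (g.coeff j) ^ e * p = s * g + r ∧ r.natDegree < j := by
  induction n with
  | zero =>
    intro p hp
    exact ⟨0, 0, p, by simp, by omega⟩
  | succ n ih =>
    intro p hp
    rcases lt_or_ge p.natDegree j with h | h
    · exact ⟨0, 0, p, by simp, h⟩
    · rcases Nat.lt_or_ge n p.natDegree with hn | hn
      swap
      · exact ih p hn
      have hpn : p.natDegree = n + 1 := by omega
      set p1 := C (g.coeff j) * p - C (p.coeff (n + 1)) * X ^ (n + 1 - j) * g with hp1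
      have h1 : p1.natDegree ≤ n := by
        rw [natDegree_le_iff_coeff_eq_zero]
        intro N hN
        rw [hp1, coeff_sub, coeff_C_mul, mul_assoc, coeff_C_mul, coeff_X_pow_mul']
        rw [if_pos (by omega)]
        rcases Nat.lt_or_ge (n + 1) N with h2 | h2
        · rw [coeff_eq_zero_of_natDegree_lt (by omega : p.natDegree < N),
            coeff_eq_zero_of_natDegree_lt (by omega : g.natDegree < N - (n + 1 - j))]
          ring
        · have : N = n + 1 := by omega
          subst this
          rw [show n + 1 - (n + 1 - j) = j by omega]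
          ring
      obtain ⟨e, s, r, h2, h3⟩ := ih p1 h1
      refine ⟨e + 1, s + C (g.coeff j) ^ e * (C (p.coeff (n + 1)) * X ^ (n + 1 - j)), r, ?_, h3⟩
      have h4 : C (g.coeff j) * p = p1 + C (p.coeff (n + 1)) * X ^ (n + 1 - j) * g := by
        rw [hp1]; ring
      rw [pow_succ, mul_assoc, h4, mul_add, h2]
      ring

/-- Truncation. -/
noncomputable def trunc (j : ℕ) (q : A[X]) : A[X] := ∑ i ∈ Finset.range (j + 1), monomial i (q.coeff i)

lemma coeff_trunc (j : ℕ) (q : A[X]) (i : ℕ) :
    (trunc j q).coeff i = if i ≤ j then q.coeff i else 0 := by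
  unfold trunc
  rw [finsetSum_coeff]
  simp only [coeff_monomial]
  rw [Finset.sum_ite_eq' (Finset.range (j + 1)) i]
  simp

lemma natDegree_trunc (j : ℕ) (q : A[X]) : (trunc j q).natDegree ≤ j := by
  rw [natDegree_le_iff_coeff_eq_zero]
  intro N hN
  rw [coeff_trunc, if_neg (by omega)]

lemma map_trunc {B : Type*} [CommRing B] (φ : A →+* B) (q : A[X]) (j : ℕ)
    (hj : (q.map φ).natDegree ≤ j) : (trunc j q).map φ = q.map φ := by
  ext i
  rw [coeff_map, coeff_trunc, coeff_map]
  split_ifs with h
  · rfl
  · rw [map_zero, ← coeff_map, coeff_eq_zero_of_natDegree_lt (by omega)]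

lemma exists_rem (p q : A[X]) (j : ℕ) (h : 1 ≤ j) :
    ∃ r : A[X], r.natDegree < j ∧ ∃ (e : ℕ) (s : A[X]),
      C (q.coeff j) ^ e * p = s * trunc j q + r := by
  obtain ⟨e, s, r, h1, h2⟩ := exists_pseudo (trunc j q) j h (natDegree_trunc j q) p.natDegree p le_rfl
  rw [coeff_trunc, if_pos le_rfl] at h1
  exact ⟨r, h2, e, s, h1⟩

open Classical in
/-- A chosen pseudo-remainder of `p` by the truncation of `q` at `j`. -/
noncomputable def rem (p q : A[X]) (j : ℕ) : A[X] :=
  if h : 1 ≤ j then (exists_rem p q j h).choose else 0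

lemma rem_spec (p q : A[X]) (j : ℕ) (h : 1 ≤ j) :
    (rem p q j).natDegree < j ∧ ∃ (e : ℕ) (s : A[X]),
      C (q.coeff j) ^ e * p = s * trunc j q + rem p q j := by
  unfold rem
  rw [dif_pos h]
  exact (exists_rem p q j h).choose_spec

lemma natDegree_rem_le (p q : A[X]) (j : ℕ) : (rem p q j).natDegree ≤ j - 1 := by
  by_cases h : 1 ≤ j
  · have := (rem_spec p q j h).1
    omega
  · unfold rem
    rw [dif_neg h]
    simp

end alg

section main

variable {Y A : Type*} [CommRing A] (ev : Y → A →+* ℝ)

/-- Same signs at finitely many coefficients. -/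
def Agree (P : Finset A) (x y : Y) : Prop := ∀ a ∈ P, SignType.sign (ev x a) = SignType.sign (ev y a)

/-- There is an order isomorphism of the line matching the signs. -/
def Good (Q : Finset A[X]) (x y : Y) : Prop :=
  ∃ θ : ℝ → ℝ, StrictMono θ ∧ Function.Surjective θ ∧ ∀ q ∈ Q, ∀ t,
    SignType.sign ((q.map (ev x)).eval t) = SignType.sign ((q.map (ev y)).eval (θ t))

/-- The statement to be proved for every finite family. -/
def BF (Q : Finset A[X]) : Prop := ∃ P : Finset A, ∀ x y : Y, Agree ev P x y → Good ev Q x y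

/-- agreeing on all coefficients -/
lemma map_zero_iff {x y : Y} {q : A[X]} {N : ℕ} (hq : q.natDegree ≤ N)
    (h : ∀ i ≤ N, SignType.sign (ev x (q.coeff i)) = SignType.sign (ev y (q.coeff i))) :
    (q.map (ev x)).natDegree = (q.map (ev y)).natDegree ∧
      (q.map (ev x) = 0 ↔ q.map (ev y) = 0) := by
  have h0 : ∀ i, (q.map (ev x)).coeff i = 0 ↔ (q.map (ev y)).coeff i = 0 := by
    intro i
    rw [coeff_map, coeff_map]
    rcases le_or_gt i N with hi | hi
    · have := h i hi
      rw [← sign_eq_zero_iff, this, sign_eq_zero_iff]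
    · rw [coeff_eq_zero_of_natDegree_lt (by omega : q.natDegree < i)]
      simp
  constructor
  · apply le_antisymm
    · rw [natDegree_le_iff_coeff_eq_zero]
      intro i hi
      rw [h0 i]
      exact coeff_eq_zero_of_natDegree_lt hi
    · rw [natDegree_le_iff_coeff_eq_zero]
      intro i hi
      rw [← h0 i]
      exact coeff_eq_zero_of_natDegree_lt hi
  · constructor
    · intro h1
      ext i
      rw [coeff_zero, ← h0 i, h1, coeff_zero]
    · intro h1
      ext i
      rw [coeff_zero, h0 i, h1, coeff_zero]

/-- The key step for two fixed points. -/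
lemma key_step {x y : Y} (m : ℕ) (p : A[X]) (Q₀ K R : Finset A[X]) (hQK : Q₀ ⊆ K)
    (hp : p.natDegree ≤ m + 1)
    (hdK : p.derivative ∈ K) (hKdeg : ∀ q ∈ K, q.natDegree ≤ m + 1)
    (hR : ∀ q ∈ K, ∀ j ≤ m + 1, rem p q j ∈ R)
    (hax : ev x (p.coeff (m + 1)) ≠ 0)
    (hcoefp : ∀ i ≤ m + 1, SignType.sign (ev x (p.coeff i)) = SignType.sign (ev y (p.coeff i)))
    (hcoef : ∀ q ∈ K, ∀ i ≤ m + 1,
      SignType.sign (ev x (q.coeff i)) = SignType.sign (ev y (q.coeff i)))
    {θ : ℝ → ℝ} (hθ : StrictMono θ) (hθs : Function.Surjective θ)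
    (hK : ∀ q ∈ K, ∀ t,
      SignType.sign ((q.map (ev x)).eval t) = SignType.sign ((q.map (ev y)).eval (θ t)))
    (hR' : ∀ q ∈ R, ∀ t,
      SignType.sign ((q.map (ev x)).eval t) = SignType.sign ((q.map (ev y)).eval (θ t))) :
    ∃ θ' : ℝ → ℝ, StrictMono θ' ∧ Function.Surjective θ' ∧
      (∀ t, SignType.sign ((p.map (ev x)).eval t) = SignType.sign ((p.map (ev y)).eval (θ' t))) ∧
      ∀ q ∈ Q₀, ∀ t,
        SignType.sign ((q.map (ev x)).eval t) = SignType.sign ((q.map (ev y)).eval (θ' t)) := by
  classical
  set f := p.map (ev x) with hf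
  set g := p.map (ev y) with hg
  have hay : ev y (p.coeff (m + 1)) ≠ 0 := by
    intro h
    have := hcoefp (m + 1) le_rfl
    rw [h, sign_zero] at this
    exact hax (sign_eq_zero_iff.mp this)
  have hfd : f.natDegree = m + 1 := by
    apply le_antisymm ((natDegree_map_le).trans hp)
    apply le_natDegree_of_ne_zero
    rw [coeff_map]; exact hax
  have hgd : g.natDegree = m + 1 := by
    apply le_antisymm ((natDegree_map_le).trans hp)
    apply le_natDegree_of_ne_zero
    rw [coeff_map]; exact hay
  have hf0 : f ≠ 0 := by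
    intro h; rw [h, natDegree_zero] at hfd; omega
  have hg0 : g ≠ 0 := by
    intro h; rw [h, natDegree_zero] at hgd; omega
  have hlc : SignType.sign f.leadingCoeff = SignType.sign g.leadingCoeff := by
    rw [leadingCoeff, leadingCoeff, hfd, hgd, hf, hg, coeff_map, coeff_map]
    exact hcoefp (m + 1) le_rfl
  have hf'0 : f.derivative ≠ 0 := by
    intro h
    have := derivative_eq_zero.mp h
    omega
  have hdf : f.derivative = p.derivative.map (ev x) := by rw [hf, derivative_map]
  have hdg : g.derivative = p.derivative.map (ev y) := by rw [hg, derivative_map]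
  -- far points
  obtain ⟨T1, hT1⟩ := sign_atBot f hf0
  obtain ⟨T2, hT2⟩ := sign_atBot g hg0
  obtain ⟨T2', hT2'⟩ := hθs T2
  obtain ⟨T3, hT3⟩ := sign_atTop f hf0
  obtain ⟨T4, hT4⟩ := sign_atTop g hg0
  obtain ⟨T4', hT4'⟩ := hθs T4
  set z₁ := min T1 T2' with hz₁
  set z₂ := max T3 T4' with hz₂
  have hlo1 : ∀ t ≤ z₁, SignType.sign (f.eval t) = SignType.sign ((-1) ^ f.natDegree * f.leadingCoeff) :=
    fun t ht => hT1 t (ht.trans (min_le_left _ _))
  have hlo2 : ∀ s ≤ θ z₁, SignType.sign (g.eval s) = SignType.sign ((-1) ^ f.natDegree * f.leadingCoeff) := by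
    intro s hs
    rw [hT2 s (hs.trans ((hθ.monotone (min_le_right _ _)).trans hT2'.le)), hgd, hfd, sign_mul,
      sign_mul, hlc]
  have hhi1 : ∀ t, z₂ ≤ t → SignType.sign (f.eval t) = SignType.sign f.leadingCoeff :=
    fun t ht => hT3 t ((le_max_left _ _).trans ht)
  have hhi2 : ∀ s, θ z₂ ≤ s → SignType.sign (g.eval s) = SignType.sign f.leadingCoeff := by
    intro s hs
    rw [hT4 s ((hT4'.ge.trans (hθ.monotone (le_max_right _ _))).trans hs), hlc]
  have hne1 : ((-1 : ℝ)) ^ f.natDegree * f.leadingCoeff ≠ 0 :=
    mul_ne_zero (pow_ne_zero _ (by norm_num)) (leadingCoeff_ne_zero.mpr hf0)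
  -- the finite set
  set Z₀ : Set ℝ := {t | ∃ q ∈ K, q.map (ev x) ≠ 0 ∧ (q.map (ev x)).eval t = 0} with hZ₀
  have hZ₀fin : Z₀.Finite := by
    have : Z₀ ⊆ ⋃ q ∈ K, ((q.map (ev x)).rootSet ℝ) := by
      rintro t ⟨q, hq, hq0, hqt⟩
      simp only [mem_iUnion]
      refine ⟨q, hq, ?_⟩
      rw [Polynomial.mem_rootSet]
      exact ⟨hq0, by simpa using hqt⟩
    exact (Set.Finite.biUnion K.finite_toSet fun q _ => Polynomial.rootSet_finite _ ℝ).subset this
  set Z : Set ℝ := Z₀ ∪ {z₁, z₂} with hZ
  have hz1Z : z₁ ∈ Z := Or.inr (by simp)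
  have hz2Z : z₂ ∈ Z := Or.inr (by simp)
  have hdz : ∀ t, f.derivative.eval t = 0 → t ∈ Z := by
    intro t ht
    left
    exact ⟨p.derivative, hdK, by rw [← hdf]; exact hf'0, by rw [← hdf]; exact ht⟩
  have hdsign : ∀ t, SignType.sign (f.derivative.eval t) = SignType.sign (g.derivative.eval (θ t)) := by
    intro t
    rw [hdf, hdg]
    exact hK _ hdK t
  have D : Dat f g Z θ := by
    refine ⟨hZ₀fin.union (by simp), hθ, hθs, hdz, ?_, ?_, ?_⟩
    · intro t ht
      apply hdz
      have := hdsign t
      rw [ht, sign_zero] at this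
      exact sign_eq_zero_iff.mp this
    · intro a ha b hb hgap u hu v hv
      obtain ⟨s, rfl⟩ := hθs v
      have hs : s ∈ Ioo a b := ⟨hθ.lt_iff_lt.mp hv.1, hθ.lt_iff_lt.mp hv.2⟩
      rw [← hdsign s]
      have hne : ∀ w ∈ Ioo a b, f.derivative.eval w ≠ 0 := by
        intro w hw h0
        rcases hgap w (hdz w h0) with h | h
        · exact absurd hw.1 (not_lt.mpr h)
        · exact absurd hw.2 (not_lt.mpr h)
      rcases const_sign f.derivative.continuous hne with h | h
      · rw [sign_pos (h u hu), sign_pos (h s hs)]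
      · rw [sign_neg (h u hu), sign_neg (h s hs)]
    · rintro t (ht | ht)
      · obtain ⟨q, hq, hq0, hqt⟩ := ht
        obtain ⟨hd, -⟩ := map_zero_iff ev (hKdeg q hq) (hcoef q hq)
        set j := (q.map (ev x)).natDegree with hj
        have hj1 : 1 ≤ j := by
          by_contra hcon
          have hj0 : (q.map (ev x)).natDegree = 0 := by omega
          rw [Polynomial.eq_C_of_natDegree_eq_zero hj0, eval_C] at hqt
          rw [Polynomial.eq_C_of_natDegree_eq_zero hj0, hqt, map_zero] at hq0
          exact hq0 rfl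
        have hjm : j ≤ m + 1 := (natDegree_map_le).trans (hKdeg q hq)
        obtain ⟨-, e, s, hrs⟩ := rem_spec p q j hj1
        have hqt' : (q.map (ev y)).eval (θ t) = 0 := by
          have := hK q hq t
          rw [hqt, sign_zero] at this
          exact sign_eq_zero_iff.mp this.symm
        have e1 := congrArg (fun r : A[X] => (r.map (ev x)).eval t) hrs
        have e2 := congrArg (fun r : A[X] => (r.map (ev y)).eval (θ t)) hrs
        simp only [Polynomial.map_mul, Polynomial.map_pow, Polynomial.map_C, Polynomial.map_add,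
          eval_mul, eval_pow, eval_C, eval_add] at e1 e2
        rw [map_trunc (ev x) q j le_rfl, hqt, mul_zero, zero_add] at e1
        rw [map_trunc (ev y) q j (by rw [← hd]), hqt', mul_zero, zero_add] at e2
        have e3 := hR' _ (hR q hq j hjm) t
        rw [← e1, ← e2, sign_mul, sign_mul, sign_pow, sign_pow, hcoef q hq j hjm] at e3
        have hcne : SignType.sign (ev y (q.coeff j)) ≠ 0 := by
          rw [← hcoef q hq j hjm]
          rw [Ne, sign_eq_zero_iff, ← coeff_map]
          exact fun h => hq0 (leadingCoeff_eq_zero.mp h)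
        exact mul_left_cancel₀ (pow_ne_zero e hcne) e3
      · rcases ht with rfl | ht
        · rw [hlo1 _ le_rfl, hlo2 _ le_rfl]
        · rw [mem_singleton_iff] at ht
          subst ht
          rw [hhi1 _ le_rfl, hhi2 _ le_rfl]
  obtain ⟨θ', h1, h2, h3, h4⟩ := transfer D hf0 hz1Z hz2Z
    (fun t ht => by rw [hlo1 t ht, hlo1 z₁ le_rfl])
    (fun h => by
      have := hlo1 z₁ le_rfl
      rw [h, sign_zero] at this
      exact hne1 (sign_eq_zero_iff.mp this.symm))
    (fun s hs => by rw [hlo2 s hs, hlo2 _ le_rfl])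
    (fun t ht => by rw [hhi1 t ht, hhi1 z₂ le_rfl])
    (fun h => by
      have := hhi1 z₂ le_rfl
      rw [h, sign_zero] at this
      exact (leadingCoeff_ne_zero.mpr hf0) (sign_eq_zero_iff.mp this.symm))
    (fun s hs => by rw [hhi2 s hs, hhi2 _ le_rfl])
  refine ⟨θ', h1, h2, h4, ?_⟩
  intro q hq t
  have hqK := hQK hq
  rw [hK q hqK t]
  obtain ⟨-, hz⟩ := map_zero_iff ev (hKdeg q hqK) (hcoef q hqK)
  by_cases hqx : q.map (ev x) = 0
  · rw [hz.mp hqx, eval_zero, eval_zero]
  · by_contra hne
    obtain ⟨w, hw, hw0⟩ := exists_zero_between (q.map (ev y)).continuous hne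
    obtain ⟨s, rfl⟩ := hθs w
    have hs0 : (q.map (ev x)).eval s = 0 := by
      have := hK q hqK s
      rw [hw0, sign_zero] at this
      exact sign_eq_zero_iff.mp this
    have hsZ : s ∈ Z := Or.inl ⟨q, hqK, hqx, hs0⟩
    have h5 := h3 s hsZ
    have hst : s = t := by
      rcases le_total (θ t) (θ' t) with h6 | h6
      · rw [uIcc_of_le h6] at hw
        have h7 := hθ.le_iff_le.mp hw.1
        have h8 : θ' s ≤ θ' t := by rw [h5]; exact hw.2
        exact le_antisymm (h1.le_iff_le.mp h8) h7
      · rw [uIcc_of_ge h6] at hw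
        have h7 := hθ.le_iff_le.mp hw.2
        have h8 : θ' t ≤ θ' s := by rw [h5]; exact hw.1
        exact le_antisymm h7 (h1.le_iff_le.mp h8)
    subst hst
    rw [h5] at hne
    exact hne rfl

/-- The parametric sign-diagram theorem. -/
theorem BF_all (m : ℕ) : ∀ Q : Finset A[X], (∀ q ∈ Q, q.natDegree ≤ m) → BF ev Q := by
  classical
  induction m with
  | zero =>
    intro Q hQ
    refine ⟨Q.image (fun q => q.coeff 0), fun x y hxy => ⟨id, strictMono_id, Function.surjective_id, ?_⟩⟩
    intro q hq t
    have h0 : q.natDegree = 0 := Nat.le_zero.mp (hQ q hq)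
    rw [Polynomial.eq_C_of_natDegree_eq_zero h0]
    simp only [Polynomial.map_C, eval_C]
    exact hxy _ (Finset.mem_image_of_mem _ hq)
  | succ m ih =>
    have inner : ∀ k : ℕ, ∀ Q : Finset A[X], (∀ q ∈ Q, q.natDegree ≤ m + 1) →
        (Q.filter (fun q => q.natDegree = m + 1)).card ≤ k → BF ev Q := by
      intro k
      induction k with
      | zero =>
        intro Q hQ hk
        apply ih
        intro q hq
        have h1 := hQ q hq
        have h2 : Q.filter (fun q => q.natDegree = m + 1) = ∅ := Finset.card_eq_zero.mp (by omega)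
        by_contra hcon
        have : q ∈ Q.filter (fun q => q.natDegree = m + 1) := by
          rw [Finset.mem_filter]; exact ⟨hq, by omega⟩
        rw [h2] at this
        exact absurd this (Finset.notMem_empty _)
      | succ k ihk =>
        intro Q hQ hk
        by_cases hex : ∃ p ∈ Q, p.natDegree = m + 1
        swap
        · apply ihk Q hQ
          have h2 : Q.filter (fun q => q.natDegree = m + 1) = ∅ := by
            rw [Finset.filter_eq_empty_iff]
            intro q hq h
            exact hex ⟨q, hq, h⟩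
          rw [h2]; simp
        obtain ⟨p, hpQ, hpd⟩ := hex
        set Q₀ := Q.erase p with hQ₀
        set K := insert p.derivative Q₀ with hK
        set R := (K ×ˢ Finset.range (m + 2)).image (fun z => rem p z.1 z.2) with hR
        have hder : p.derivative.natDegree ≤ m := by
          have := natDegree_derivative_le p; omega
        have hKdeg : ∀ q ∈ K, q.natDegree ≤ m + 1 := by
          intro q hq
          rw [hK, Finset.mem_insert] at hq
          rcases hq with rfl | hq
          · omega
          · exact hQ q (Finset.mem_of_mem_erase hq)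
        have hRdeg : ∀ q ∈ R, q.natDegree ≤ m := by
          intro q hq
          rw [hR, Finset.mem_image] at hq
          obtain ⟨⟨q', j⟩, hz, rfl⟩ := hq
          rw [Finset.mem_product, Finset.mem_range] at hz
          have := natDegree_rem_le p q' j
          simp only at hz ⊢
          omega
        have hcard₀ : (Q₀.filter (fun q => q.natDegree = m + 1)).card ≤ k := by
          rw [hQ₀, Finset.filter_erase, Finset.card_erase_of_mem (by simp [hpQ, hpd])]
          omega
        obtain ⟨P₁, hP₁⟩ : BF ev (K ∪ R) := by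
          apply ihk
          · intro q hq
            rw [Finset.mem_union] at hq
            rcases hq with hq | hq
            · exact hKdeg q hq
            · have := hRdeg q hq; omega
          · refine le_trans (Finset.card_le_card ?_) hcard₀
            intro q hq
            rw [Finset.mem_filter, Finset.mem_union] at hq
            rw [Finset.mem_filter]
            obtain ⟨hq1 | hq1, hq2⟩ := hq
            · rw [hK, Finset.mem_insert] at hq1
              rcases hq1 with rfl | hq1
              · omega
              · exact ⟨hq1, hq2⟩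
            · have := hRdeg q hq1; omega
        obtain ⟨P₂, hP₂⟩ : BF ev (insert p.eraseLead Q₀) := by
          have hel : p.eraseLead.natDegree ≤ m := by
            have := eraseLead_natDegree_le p; omega
          apply ihk
          · intro q hq
            rw [Finset.mem_insert] at hq
            rcases hq with rfl | hq
            · omega
            · exact hQ q (Finset.mem_of_mem_erase hq)
          · refine le_trans (Finset.card_le_card ?_) hcard₀
            intro q hq
            rw [Finset.mem_filter, Finset.mem_insert] at hq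
            rw [Finset.mem_filter]
            obtain ⟨rfl | hq1, hq2⟩ := hq
            · omega
            · exact ⟨hq1, hq2⟩
        set P₃ : Finset A := (insert p K).biUnion (fun q => (Finset.range (m + 2)).image q.coeff)
          with hP₃
        refine ⟨P₁ ∪ P₂ ∪ P₃, ?_⟩
        intro x y hxy
        have a1 : Agree ev P₁ x y := fun a ha =>
          hxy a (Finset.mem_union_left _ (Finset.mem_union_left _ ha))
        have a2 : Agree ev P₂ x y := fun a ha =>
          hxy a (Finset.mem_union_left _ (Finset.mem_union_right _ ha))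
        have a3 : ∀ q ∈ insert p K, ∀ i ≤ m + 1,
            SignType.sign (ev x (q.coeff i)) = SignType.sign (ev y (q.coeff i)) := by
          intro q hq i hi
          apply hxy
          apply Finset.mem_union_right
          rw [hP₃, Finset.mem_biUnion]
          exact ⟨q, hq, Finset.mem_image_of_mem _ (Finset.mem_range.mpr (by omega))⟩
        by_cases hax : ev x (p.coeff (m + 1)) = 0
        · have hay : ev y (p.coeff (m + 1)) = 0 := by
            have := a3 p (Finset.mem_insert_self _ _) (m + 1) le_rfl
            rw [hax, sign_zero] at this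
            exact sign_eq_zero_iff.mp this.symm
          obtain ⟨θ, h1, h2, h3⟩ := hP₂ x y a2
          refine ⟨θ, h1, h2, ?_⟩
          intro q hq t
          by_cases hqp : q = p
          · subst hqp
            have e1 : ∀ z : Y, ev z (q.coeff (m + 1)) = 0 → q.map (ev z) = q.eraseLead.map (ev z) := by
              intro z hz
              ext i
              rw [coeff_map, coeff_map, eraseLead_coeff]
              split_ifs with h
              · rw [h, hpd, hz, map_zero]
              · rfl
            rw [e1 x hax, e1 y hay]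
            exact h3 _ (Finset.mem_insert_self _ _) t
          · exact h3 q (Finset.mem_insert_of_mem (Finset.mem_erase.mpr ⟨hqp, hq⟩)) t
        · obtain ⟨θ, h1, h2, h3⟩ := hP₁ x y a1
          obtain ⟨θ', g1, g2, g3, g4⟩ := key_step ev m p Q₀ K R (Finset.subset_insert _ _) hpd.le
            (Finset.mem_insert_self _ _) hKdeg
            (fun q hq j hj => by
              rw [hR, Finset.mem_image]
              exact ⟨(q, j), Finset.mem_product.mpr ⟨hq, Finset.mem_range.mpr (by omega)⟩, rfl⟩)
            hax (a3 p (Finset.mem_insert_self _ _))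
            (fun q hq => a3 q (Finset.mem_insert_of_mem hq)) h1 h2
            (fun q hq => h3 q (Finset.mem_union_left _ hq))
            (fun q hq => h3 q (Finset.mem_union_right _ hq))
          refine ⟨θ', g1, g2, ?_⟩
          intro q hq t
          by_cases hqp : q = p
          · subst hqp; exact g3 t
          · exact g4 q (Finset.mem_erase.mpr ⟨hqp, hq⟩) t
    intro Q hQ
    exact inner _ Q hQ le_rfl

theorem BF_univ (Q : Finset A[X]) : BF ev Q :=
  BF_all ev (Q.sup natDegree) Q fun _ hq => Finset.le_sup hq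

end main

end Pool.Agent.helper49.TS
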