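import Mathlib
import Pool.Agent.helper49.TS3

set_option autoImplicit false

/-! Semialgebraic sets in real vector spaces and the Tarski-Seidenberg theorem. -/

namespace Pool.Agent.helper49.TS

open Set Polynomial

section defs

variable (E : Type*) [AddCommGroup E] [Module ℝ E]

/-- The algebra of polynomial functions on a real vector space. -/
def PF : Subalgebra ℝ (E → ℝ) := Algebra.adjoin ℝ {f | ∃ l : E →ₗ[ℝ] ℝ, f = fun x => l x}

variable {E}

lemma lin_mem (l : E →ₗ[ℝ] ℝ) : (fun x => l x) ∈ PF E := Algebra.subset_adjoin ⟨l, rfl⟩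

/-- Semialgebraic sets: unions of sign classes of finitely many polynomial functions. -/
def SA (S : Set E) : Prop :=
  ∃ P : Finset (E → ℝ), (∀ p ∈ P, p ∈ PF E) ∧
    ∀ x y, (∀ p ∈ P, SignType.sign (p x) = SignType.sign (p y)) → x ∈ S → y ∈ S

lemma SA.compl {S : Set E} (h : SA S) : SA Sᶜ := by
  obtain ⟨P, hP, h⟩ := h
  exact ⟨P, hP, fun x y hxy hx hy => hx (h y x (fun p hp => (hxy p hp).symm) hy)⟩

lemma SA.inter {S T : Set E} (hS : SA S) (hT : SA T) : SA (S ∩ T) := by
  classical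
  obtain ⟨P, hP, h⟩ := hS
  obtain ⟨Q, hQ, h'⟩ := hT
  refine ⟨P ∪ Q, ?_, ?_⟩
  · intro p hp
    rcases Finset.mem_union.mp hp with h1 | h1
    · exact hP p h1
    · exact hQ p h1
  · rintro x y hxy ⟨h1, h2⟩
    exact ⟨h x y (fun p hp => hxy p (Finset.mem_union_left _ hp)) h1,
      h' x y (fun p hp => hxy p (Finset.mem_union_right _ hp)) h2⟩

lemma SA.univ : SA (Set.univ : Set E) := ⟨∅, by simp, fun _ _ _ _ => trivial⟩

lemma SA.union {S T : Set E} (hS : SA S) (hT : SA T) : SA (S ∪ T) := by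
  have := (hS.compl.inter hT.compl).compl
  rwa [Set.compl_inter, compl_compl, compl_compl] at this

lemma SA.iInter {ι : Type*} [Finite ι] {S : ι → Set E} (h : ∀ i, SA (S i)) : SA (⋂ i, S i) := by
  classical
  have := Fintype.ofFinite ι
  choose P hP h using h
  refine ⟨Finset.univ.biUnion P, ?_, ?_⟩
  · intro p hp
    obtain ⟨i, -, hi⟩ := Finset.mem_biUnion.mp hp
    exact hP i p hi
  · intro x y hxy hx
    rw [Set.mem_iInter] at hx ⊢
    intro i
    exact h i x y (fun p hp => hxy p (Finset.mem_biUnion.mpr ⟨i, Finset.mem_univ i, hp⟩)) (hx i)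

lemma SA.pos {p : E → ℝ} (hp : p ∈ PF E) : SA {x | 0 < p x} :=
  ⟨{p}, by simpa using hp, fun x y hxy hx => by
    have := hxy p (Finset.mem_singleton_self p)
    rw [Set.mem_ofPred_eq] at hx ⊢
    rw [sign_pos hx] at this
    exact sign_eq_one_iff.mp this.symm⟩

lemma SA.zero {p : E → ℝ} (hp : p ∈ PF E) : SA {x | p x = 0} :=
  ⟨{p}, by simpa using hp, fun x y hxy hx => by
    have := hxy p (Finset.mem_singleton_self p)
    rw [Set.mem_ofPred_eq] at hx ⊢
    rw [hx, sign_zero] at this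
    exact sign_eq_zero_iff.mp this.symm⟩

variable {F : Type*} [AddCommGroup F] [Module ℝ F]

/-- Polynomial maps. -/
def PM (φ : E → F) : Prop := ∀ l : F →ₗ[ℝ] ℝ, (fun x => l (φ x)) ∈ PF E

lemma PM.comp_mem {φ : E → F} (hφ : PM φ) {p : F → ℝ} (hp : p ∈ PF F) : (fun x => p (φ x)) ∈ PF E := by
  unfold PF at hp
  induction hp using Algebra.adjoin_induction with
  | mem f hf =>
    obtain ⟨l, rfl⟩ := hf
    exact hφ l
  | algebraMap r => exact (PF E).algebraMap_mem r
  | add f g _ _ hf hg => exact (PF E).add_mem hf hg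
  | mul f g _ _ hf hg => exact (PF E).mul_mem hf hg

lemma PM.preimage {φ : E → F} (hφ : PM φ) {S : Set F} (hS : SA S) : SA (φ ⁻¹' S) := by
  classical
  obtain ⟨P, hP, h⟩ := hS
  refine ⟨P.image (fun p x => p (φ x)), ?_, ?_⟩
  · intro q hq
    obtain ⟨p, hp, rfl⟩ := Finset.mem_image.mp hq
    exact hφ.comp_mem (hP p hp)
  · intro x y hxy hx
    exact h (φ x) (φ y) (fun p hp => hxy _ (Finset.mem_image_of_mem _ hp)) hx

lemma PM.of_linear (L : E →ₗ[ℝ] F) : PM (fun x => L x) := fun l => lin_mem (l ∘ₗ L)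

lemma PM.const (c : F) : PM (fun _ : E => c) := fun l => (PF E).algebraMap_mem (l c)

lemma PM.sub {φ ψ : E → F} (h : PM φ) (h' : PM ψ) : PM (fun x => φ x - ψ x) := fun l => by
  simp only [map_sub]
  exact (PF E).sub_mem (h l) (h' l)

lemma PM.linear_comp {G : Type*} [AddCommGroup G] [Module ℝ G] {φ : E → F} (h : PM φ)
    (L : F →ₗ[ℝ] G) : PM (fun x => L (φ x)) := fun l => h (l ∘ₗ L)

/-- Bilinear combinations of linear maps are polynomial. -/
lemma PM.bilin {E₁ E₂ : Type*} [AddCommGroup E₁] [Module ℝ E₁] [FiniteDimensional ℝ E₁]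
    [AddCommGroup E₂] [Module ℝ E₂] (B : E₁ →ₗ[ℝ] E₂ →ₗ[ℝ] F) (L₁ : E →ₗ[ℝ] E₁)
    (L₂ : E →ₗ[ℝ] E₂) : PM (fun x => B (L₁ x) (L₂ x)) := by
  intro l
  let b := Module.finBasis ℝ E₁
  have h : (fun x => l (B (L₁ x) (L₂ x))) =
      ∑ i, (fun x => (b.coord i ∘ₗ L₁) x) * (fun x => (l ∘ₗ B (b i) ∘ₗ L₂) x) := by
    funext x
    rw [Finset.sum_apply]
    simp only [Pi.mul_apply, LinearMap.comp_apply, Module.Basis.coord_apply]
    conv_lhs => rw [← b.sum_repr (L₁ x)]
    simp only [map_sum, map_smul, LinearMap.sum_apply, LinearMap.smul_apply, smul_eq_mul]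
  rw [h]
  exact (PF E).sum_mem fun i _ => (PF E).mul_mem (lin_mem _) (lin_mem _)

lemma SA.eq_zero [FiniteDimensional ℝ F] {φ : E → F} (h : PM φ) : SA {x | φ x = 0} := by
  let b := Module.finBasis ℝ F
  have h1 : {x | φ x = 0} = ⋂ i, {x | (b.coord i) (φ x) = 0} := by
    ext x
    simp only [Set.mem_ofPred_eq, Set.mem_iInter, Module.Basis.coord_apply]
    constructor
    · intro h i; rw [h]; simp
    · intro h
      apply b.repr.injective
      ext i
      rw [h i]; simp
  rw [h1]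
  exact SA.iInter fun i => SA.zero (h (b.coord i))

lemma SA.eq' [FiniteDimensional ℝ F] {φ ψ : E → F} (h : PM φ) (h' : PM ψ) : SA {x | φ x = ψ x} := by
  have := SA.eq_zero (h.sub h')
  simpa only [sub_eq_zero] using this

end defs

section proj

variable {E : Type*} [AddCommGroup E] [Module ℝ E]

/-- evaluation -/
def evx (x : E) : PF E →+* ℝ := (Pi.evalRingHom (fun _ : E => ℝ) x).comp (PF E).val.toRingHom

lemma exists_poly {p : E × ℝ → ℝ} (hp : p ∈ PF (E × ℝ)) :
    ∃ q : (PF E)[X], ∀ x t, p (x, t) = (q.map (evx x)).eval t := by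
  unfold PF at hp
  induction hp using Algebra.adjoin_induction with
  | mem f hf =>
    obtain ⟨l, rfl⟩ := hf
    refine ⟨C ⟨fun x => (l ∘ₗ LinearMap.inl ℝ E ℝ) x, lin_mem _⟩ +
      C (algebraMap ℝ (PF E) (l (0, 1))) * X, ?_⟩
    intro x t
    simp only [Polynomial.map_add, Polynomial.map_mul, Polynomial.map_C, Polynomial.map_X, eval_add,
      eval_mul, eval_C, eval_X]
    have h1 : (x, t) = (x, 0) + t • ((0 : E), (1 : ℝ)) := by ext <;> simp
    rw [h1, map_add, map_smul, smul_eq_mul, mul_comm t]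
    rfl
  | algebraMap r =>
    refine ⟨C (algebraMap ℝ (PF E) r), ?_⟩
    intro x t
    simp only [Polynomial.map_C, eval_C]
    rfl
  | add f g _ _ hf hg =>
    obtain ⟨q, hq⟩ := hf
    obtain ⟨q', hq'⟩ := hg
    exact ⟨q + q', fun x t => by simp [hq x t, hq' x t]⟩
  | mul f g _ _ hf hg =>
    obtain ⟨q, hq⟩ := hf
    obtain ⟨q', hq'⟩ := hg
    exact ⟨q * q', fun x t => by simp [hq x t, hq' x t]⟩

/-- Projection along one coordinate. -/
theorem SA.proj_one {S : Set (E × ℝ)} (hS : SA S) : SA {x | ∃ t, (x, t) ∈ S} := by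
  classical
  obtain ⟨P, hP, h⟩ := hS
  choose! q hq using fun p (hp : p ∈ PF (E × ℝ)) => exists_poly hp
  obtain ⟨P', hP'⟩ := BF_univ (fun x : E => evx x) (P.image q)
  refine ⟨P'.image (fun a : PF E => (a : E → ℝ)), ?_, ?_⟩
  · intro p hp
    obtain ⟨a, -, rfl⟩ := Finset.mem_image.mp hp
    exact a.2
  · rintro x y hxy ⟨t, ht⟩
    obtain ⟨θ, -, -, hθ⟩ := hP' x y (fun a ha => hxy _ (Finset.mem_image_of_mem _ ha))
    refine ⟨θ t, h (x, t) (y, θ t) ?_ ht⟩
    intro p hp
    rw [hq p (hP p hp), hq p (hP p hp)]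
    exact hθ (q p) (Finset.mem_image_of_mem _ hp) t

/-- Projection along several coordinates. -/
theorem SA.proj_fin (n : ℕ) : ∀ {S : Set (E × (Fin n → ℝ))} (_ : SA S), SA {x | ∃ v, (x, v) ∈ S} := by
  induction n with
  | zero =>
    intro S hS
    have h1 : {x : E | ∃ v, (x, v) ∈ S} = (fun x : E => (x, (0 : Fin 0 → ℝ))) ⁻¹' S := by
      ext x
      constructor
      · rintro ⟨v, hv⟩
        rw [Subsingleton.elim v 0] at hv
        exact hv
      · intro h
        exact ⟨0, h⟩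
    rw [h1]
    exact PM.preimage (fun l => lin_mem (l ∘ₗ LinearMap.inl ℝ E (Fin 0 → ℝ))) hS
  | succ n ih =>
    intro S hS
    let L : ((E × (Fin n → ℝ)) × ℝ) →ₗ[ℝ] (E × (Fin (n + 1) → ℝ)) :=
      { toFun := fun z => (z.1.1, Fin.cons z.2 z.1.2)
        map_add' := by
          intro z z'
          ext i
          · rfl
          · refine Fin.cases ?_ (fun i => ?_) i <;> simp
        map_smul' := by
          intro c z
          ext i
          · rfl
          · refine Fin.cases ?_ (fun i => ?_) i <;> simp }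
    have h1 := ih (SA.proj_one ((PM.of_linear L).preimage hS))
    convert h1 using 1
    ext x
    constructor
    · rintro ⟨v, hv⟩
      refine ⟨Fin.tail v, v 0, ?_⟩
      change (x, Fin.cons (v 0) (Fin.tail v)) ∈ S
      rwa [Fin.cons_self_tail]
    · rintro ⟨v, t, hv⟩
      exact ⟨Fin.cons t v, hv⟩

/-- The Tarski-Seidenberg theorem: projections of semialgebraic sets along a finite-dimensional
space are semialgebraic. -/
theorem SA.proj {V : Type*} [AddCommGroup V] [Module ℝ V] [FiniteDimensional ℝ V]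
    {S : Set (E × V)} (hS : SA S) : SA {x | ∃ v, (x, v) ∈ S} := by
  let e := (Module.finBasis ℝ V).equivFun
  let L : (E × (Fin (Module.finrank ℝ V) → ℝ)) →ₗ[ℝ] (E × V) :=
    LinearMap.prodMap LinearMap.id e.symm.toLinearMap
  have h1 := SA.proj_fin _ ((PM.of_linear L).preimage hS)
  convert h1 using 1
  ext x
  constructor
  · rintro ⟨v, hv⟩
    refine ⟨e v, ?_⟩
    change (x, e.symm (e v)) ∈ S
    rwa [LinearEquiv.symm_apply_apply]
  · rintro ⟨v, hv⟩
    exact ⟨e.symm v, hv⟩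

end proj

end Pool.Agent.helper49.TS
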