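import Mathlib
import Pool.Agent.helper49.TS4

set_option autoImplicit false

namespace Pool.Agent.helper49.TS

open Set Topology

/-- A finite union of locally closed sets contains a relatively open piece of its closure. -/
lemma exists_open_of_locallyClosed {X ι : Type*} [TopologicalSpace X] (L : ι → Set X)
    (hL : ∀ i, IsLocallyClosed (L i)) (s : Finset ι) :
    (⋃ i ∈ s, L i).Nonempty → ∃ U : Set X, IsOpen U ∧ (U ∩ closure (⋃ i ∈ s, L i)).Nonempty ∧
      U ∩ closure (⋃ i ∈ s, L i) ⊆ ⋃ i ∈ s, L i := by
  classical
  induction s using Finset.induction_on with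
  | empty => intro h; simp at h
  | insert i s _ ih =>
    intro hne
    rw [Finset.set_biUnion_insert] at hne ⊢
    set S' := ⋃ j ∈ s, L j with hS'
    set F := closure (L i ∪ S') with hF
    by_cases hA : ∃ O : Set X, IsOpen O ∧ (O ∩ F).Nonempty ∧ O ∩ F ⊆ closure (L i)
    · obtain ⟨O, hO, hOF, hOF'⟩ := hA
      obtain ⟨x, hx⟩ := hOF
      have h1 : x ∈ closure (L i) := hOF' hx
      obtain ⟨y, hyO, hyL⟩ := mem_closure_iff.mp h1 O hO hx.1
      obtain ⟨V, Z, hV, hZ, hLi⟩ := hL i
      refine ⟨O ∩ V, hO.inter hV, ⟨y, ⟨hyO, ?_⟩, subset_closure (Or.inl hyL)⟩, ?_⟩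
      · rw [hLi] at hyL; exact hyL.1
      · rintro z ⟨⟨hzO, hzV⟩, hzF⟩
        left
        have h2 : z ∈ closure (L i) := hOF' ⟨hzO, hzF⟩
        rw [hLi]
        refine ⟨hzV, ?_⟩
        have h3 : closure (L i) ⊆ Z := by
          rw [hLi]; exact closure_minimal Set.inter_subset_right hZ
        exact h3 h2
    · push Not at hA
      have hcl : closure S' = F := by
        apply subset_antisymm (closure_mono Set.subset_union_right)
        intro x hx
        rw [mem_closure_iff]
        intro O hO hxO
        have h1 := hA O hO ⟨x, hxO, hx⟩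
        rw [Set.not_subset] at h1
        obtain ⟨y, ⟨hyO, hyF⟩, hyL⟩ := h1
        obtain ⟨z, ⟨hzO, hzL⟩, hzS⟩ := mem_closure_iff.mp hyF (O ∩ (closure (L i))ᶜ)
          (hO.inter isClosed_closure.isOpen_compl) ⟨hyO, hyL⟩
        rcases hzS with h | h
        · exact absurd (subset_closure h) hzL
        · exact ⟨z, hzO, h⟩
      have hne' : S'.Nonempty := by
        rw [← closure_nonempty_iff, hcl, hF, closure_nonempty_iff]
        exact hne
      obtain ⟨U, hU, hU1, hU2⟩ := ih hne'
      rw [hcl] at hU1 hU2
      exact ⟨U, hU, hU1, hU2.trans Set.subset_union_right⟩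

section top

variable {E : Type*} [NormedAddCommGroup E] [NormedSpace ℝ E] [FiniteDimensional ℝ E]

lemma continuous_of_mem_PF {p : E → ℝ} (hp : p ∈ PF E) : Continuous p := by
  unfold PF at hp
  induction hp using Algebra.adjoin_induction with
  | mem f hf =>
    obtain ⟨l, rfl⟩ := hf
    exact l.continuous_of_finiteDimensional
  | algebraMap r => exact continuous_const
  | add f g _ _ hf hg => exact hf.add hg
  | mul f g _ _ hf hg => exact hf.mul hg

lemma SA.exists_open {S : Set E} (hS : SA S) (hne : S.Nonempty) :
    ∃ U : Set E, IsOpen U ∧ (U ∩ closure S).Nonempty ∧ U ∩ closure S ⊆ S := by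
  classical
  obtain ⟨P, hP, h⟩ := hS
  let L : (P → SignType) → Set E := fun σ => {x | ∀ p : P, SignType.sign (p.1 x) = σ p}
  have hL : ∀ σ, IsLocallyClosed (L σ) := by
    intro σ
    have h1 : L σ = ⋂ p : P, {x | SignType.sign (p.1 x) = σ p} := by
      ext x; simp [L]
    rw [h1]
    have h2 : ∀ p : P, IsLocallyClosed {x : E | SignType.sign (p.1 x) = σ p} := by
      intro p
      have hc := continuous_of_mem_PF (hP p.1 p.2)
      rcases h3 : σ p with _ | _ | _
      · have : {x : E | SignType.sign (p.1 x) = SignType.zero} = {x | p.1 x = 0} := by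
          ext x
          simp only [Set.mem_ofPred_eq]
          exact sign_eq_zero_iff
        rw [this]
        exact (isClosed_eq hc continuous_const).isLocallyClosed
      · have : {x : E | SignType.sign (p.1 x) = SignType.neg} = {x | p.1 x < 0} := by
          ext x
          simp only [Set.mem_ofPred_eq]
          exact sign_eq_neg_one_iff
        rw [this]
        exact (isOpen_lt hc continuous_const).isLocallyClosed
      · have : {x : E | SignType.sign (p.1 x) = SignType.pos} = {x | 0 < p.1 x} := by
          ext x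
          simp only [Set.mem_ofPred_eq]
          exact sign_eq_one_iff
        rw [this]
        exact (isOpen_lt continuous_const hc).isLocallyClosed
    have h4 : ∀ s : Finset P, IsLocallyClosed (⋂ p ∈ s, {x : E | SignType.sign (p.1 x) = σ p}) := by
      intro s
      induction s using Finset.induction_on with
      | empty => simpa using isOpen_univ.isLocallyClosed
      | insert p s _ ih =>
        rw [Finset.set_biInter_insert]
        exact (h2 p).inter ih
    have h5 := h4 Finset.univ
    simpa using h5
  let Sg : Finset (P → SignType) := Finset.univ.filter (fun σ => (L σ ∩ S).Nonempty)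
  have hS' : S = ⋃ σ ∈ Sg, L σ := by
    ext x
    simp only [Set.mem_iUnion, Sg, Finset.mem_filter, Finset.mem_univ, true_and]
    constructor
    · intro hx
      exact ⟨fun p => SignType.sign (p.1 x), ⟨x, fun p => rfl, hx⟩, fun p => rfl⟩
    · rintro ⟨σ, ⟨y, hy, hyS⟩, hx⟩
      refine h y x ?_ hyS
      intro p hp
      rw [hy ⟨p, hp⟩, hx ⟨p, hp⟩]
  rw [hS'] at hne ⊢
  exact exists_open_of_locallyClosed L hL Sg hne

end top

end Pool.Agent.helper49.TS
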